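import Mathlib
import Pool.Agent.W960.Alg
import Pool.Agent.NPC.Num

/-!
Project ES (helper999): an exact uniform sampler for the spanning trees of simplicial complexes in
expected polynomial time (MP_d8fb5e_lc).  Definitions and statements of the parts.

The sampler: `K = (n + 1) ^ 2` coins are tossed. If one of them shows heads, a lazy random walk on
the bases (exchange of two elements) is run for polynomially many steps and its end point is the
output. If all show tails (probability `2 ^ (-K)`), the exact distribution of the walk is computed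
by brute force, and the output is sampled so that the mixture is exactly uniform.
-/

set_option autoImplicit false

namespace Pool.Agent.W999.ES

open Finset Filter Topology
open Pool.Agent.NPC Pool.Agent.W960

/-! ### Bit strings -/

/-- the value of a bit string (most significant bit first) -/
def bval (l : List Bool) : ℕ := l.foldl (fun n b => 2 * n + (if b then 1 else 0)) 0

/-- all bit strings of length `m`, the lists being cut at length `N` -/
def allB (N : ℕ) : ℕ → List (List Bool)
  | 0 => [[]]
  | m + 1 => ((allB N m).flatMap (fun b => [false :: b, true :: b])).take N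

/-- the number of bit strings of length `k` with property `A` -/
def nb (k : ℕ) (A : List Bool → Bool) : ℕ := ((allB (2 ^ k) k).filter A).length

/-! ### The walk -/

/-- exchange the bits number `i` and `e` -/
def swapB (m i e : ℕ) (b : List Bool) : List Bool :=
  if i < m ∧ e < m then
    (List.range m).map (fun j => b.getD (if j = i then e else if j = e then i else j) false)
  else b

/-- one step of the walk; `c` consists of `1 + 2 a` coins -/
def stepB (m a : ℕ) (q : List Bool → Bool) (c b : List Bool) : List Bool :=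
  if c.headD false = true then
    (if q (swapB m (bval (c.tail.take a)) (bval (c.tail.drop a)) b) = true then
      swapB m (bval (c.tail.take a)) (bval (c.tail.drop a)) b else b)
  else b

/-- the walk with `t` steps -/
def walk (m a t : ℕ) (q : List Bool → Bool) (b₀ r : List Bool) : List Bool :=
  (List.range t).foldl
    (fun b j => stepB m a q ((r.drop (j * (2 * a + 1))).take (2 * a + 1)) b) b₀

/-! ### The exact distribution of the walk -/

/-- the number stored for `b` in a table -/
def look (T : List (List Bool × ℕ)) (b : List Bool) : ℕ :=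
  ((T.filter (fun p => decide (p.1 = b))).map (fun p => p.2)).sum

/-- one round of the dynamic program -/
def tstep (m a : ℕ) (q : List Bool → Bool) (T : List (List Bool × ℕ)) : List (List Bool × ℕ) :=
  T.map (fun p => (p.1,
    ((allB (2 ^ (2 * a + 1)) (2 * a + 1)).map (fun c => look T (stepB m a q c p.1))).sum))

/-- the table: every base `b` with the number of coin sequences which lead from `b₀` to `b`; all
lists are cut at length `N` -/
def tab (N m a t : ℕ) (q : List Bool → Bool) (b₀ : List Bool) : List (List Bool × ℕ) :=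
  (tstep m a q)^[t] (((allB N m).filter q).map (fun b => (b, if b = b₀ then 1 else 0)))

/-- the weights of the correction -/
def wts (K L : ℕ) (T : List (List Bool × ℕ)) : List (List Bool × ℕ) :=
  T.map (fun p => (p.1, 2 ^ (K + L) - T.length * ((2 ^ K - 1) * p.2)))

/-- the entry `b` with weight `w` of the list of weights `T` (of total weight `Z`) such that the
dyadic interval `[U / 2^k, (U+1) / 2^k]` is contained in `[C / Z, (C + w) / Z]`, `C` the sum of the
weights of the earlier entries -/
def cell (k U Z : ℕ) (T : List (List Bool × ℕ)) : Option (List Bool) :=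
  (T.foldl (fun (s : ℕ × Option (List Bool)) p => (s.1 + p.2,
    if s.2.isSome = true then s.2
    else if s.1 * 2 ^ k ≤ U * Z ∧ (U + 1) * Z ≤ (s.1 + p.2) * 2 ^ k then some p.1 else none))
    (0, none)).2

/-- the sampler for the bases given by the test `q`, on the coins `r` -/
def core (m K a t : ℕ) (q : List Bool → Bool) (b₀ r : List Bool) : Option (List Bool) :=
  if r.length < K + t * (2 * a + 1) then none
  else if (r.take K).any (fun b => b) = true then some (walk m a t q b₀ (r.drop K))
  else if r.length < K + 2 ^ m then none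
  else cell (r.length - K) (bval (r.drop K))
    ((tab r.length m a t q b₀).length * 2 ^ (t * (2 * a + 1)))
    (wts K (t * (2 * a + 1)) (tab r.length m a t q b₀))

/-! ### Hypotheses on the test -/

/-- the bases -/
def bs (m : ℕ) (q : List Bool → Bool) : Finset (List Bool) := ((allB (2 ^ m) m).filter q).toFinset

open scoped Classical in
/-- the Poincaré inequality for the exchange graph of the bases -/
def PI (m : ℕ) (q : List Bool → Bool) : Prop := ∀ f : List Bool → ℝ, ∑ b ∈ bs m q, f b = 0 →
  ∑ b ∈ bs m q, f b ^ 2 ≤ (1 / 2) * ∑ b ∈ bs m q,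
    ∑ b' ∈ (bs m q).filter (fun b' => b' ≠ b ∧ ∃ i < m, ∃ e < m, b' = swapB m i e b),
      (f b - f b') ^ 2

/-- hypotheses on the parameters of the sampler -/
structure Hyp (m K a t : ℕ) (q : List Bool → Bool) (b₀ : List Bool) : Prop where
  len : ∀ b, q b = true → b.length = m
  start : q b₀ = true
  poincare : PI m q
  ha : m ≤ 2 ^ a
  ht : t = 4 * 4 ^ a * (K + m)

/-! ### Statements of the parts -/

/-- POI: Poincaré inequality for the bases of a matroid (Anari, Liu, Oveis Gharan, Vinzant) -/
def S_POI : Prop := ∀ (n r : ℕ) (𝓑 : Finset (Finset (Fin n))), 𝓑.Nonempty →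
  (∀ B ∈ 𝓑, B.card = r) →
  (∀ A ∈ 𝓑, ∀ B ∈ 𝓑, ∀ x ∈ A \ B, ∃ y ∈ B \ A, insert y (A.erase x) ∈ 𝓑) →
  ∀ f : Finset (Fin n) → ℝ, ∑ B ∈ 𝓑, f B = 0 →
    ∑ B ∈ 𝓑, f B ^ 2 ≤
      (1 / 2) * ∑ B ∈ 𝓑, ∑ B' ∈ 𝓑.filter (fun B' => (B \ B').card = 1), (f B - f B') ^ 2

/-- CNT: the table contains the exact distribution of the walk -/
def S_CNT : Prop := ∀ (N m K a t : ℕ) (q : List Bool → Bool) (b₀ : List Bool),
  Hyp m K a t q b₀ → 2 ^ m ≤ N →
  tab N m a t q b₀ = ((allB (2 ^ m) m).filter q).map
    (fun b => (b, nb (t * (2 * a + 1)) (fun r => decide (walk m a t q b₀ r = b))))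

/-- MIX: the walk is close to uniform -/
def S_MIX : Prop := ∀ (m K a t : ℕ) (q : List Bool → Bool) (b₀ : List Bool),
  Hyp m K a t q b₀ → ∀ b ∈ bs m q,
    (bs m q).card * (2 ^ K - 1) * nb (t * (2 * a + 1)) (fun r => decide (walk m a t q b₀ r = b)) ≤
      2 ^ (K + t * (2 * a + 1))

/-- CELL: sampling from a list of weights -/
def S_CELL : Prop := ∀ (T : List (List Bool × ℕ)), (T.map (fun p => p.1)).Nodup →
  (T.map (fun p => p.2)).sum ≠ 0 →
  (∀ (k : ℕ) (r r' : List Bool) (b : List Bool), r.length = k →
    cell k (bval r) (T.map (fun p => p.2)).sum T = some b →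
    cell (k + r'.length) (bval (r ++ r')) (T.map (fun p => p.2)).sum T = some b) ∧
  (∀ p ∈ T, ∀ k : ℕ,
    (p.2 * 2 ^ k : ℝ) / (T.map (fun p => p.2)).sum - 2 ≤
      nb k (fun r => decide (cell k (bval r) (T.map (fun p => p.2)).sum T = some p.1)) ∧
    (nb k (fun r => decide (cell k (bval r) (T.map (fun p => p.2)).sum T = some p.1)) : ℝ) ≤
      (p.2 * 2 ^ k : ℝ) / (T.map (fun p => p.2)).sum) ∧
  (∀ k : ℕ, nb k (fun r => decide (cell k (bval r) (T.map (fun p => p.2)).sum T = none)) ≤
      2 * T.length) ∧
  (∀ (k U Z : ℕ) (b : List Bool), cell k U Z T = some b → b ∈ T.map (fun p => p.1))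

/-- CORE: the properties of the sampler -/
def S_CORE : Prop := ∀ (m K a t : ℕ) (q : List Bool → Bool) (b₀ : List Bool),
  Hyp m K a t q b₀ →
  (∀ (r r' b : List Bool), core m K a t q b₀ r = some b → core m K a t q b₀ (r ++ r') = some b) ∧
  (∀ b ∈ bs m q, Tendsto (fun k : ℕ =>
    (nb k (fun r => decide (core m K a t q b₀ r = some b)) : ℝ) / 2 ^ k) atTop
      (𝓝 (1 / (bs m q).card))) ∧
  (∀ (r b : List Bool), core m K a t q b₀ r = some b → b ∈ bs m q) ∧
  (∀ k, K + t * (2 * a + 1) ≤ k →
    nb k (fun r => decide (core m K a t q b₀ r = none)) ≤ 2 ^ (k - K)) ∧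
  (∀ k, K + t * (2 * a + 1) + 2 ^ m ≤ k →
    nb k (fun r => decide (core m K a t q b₀ r = none)) ≤ 2 ^ (m + 1))

/-- POLY: the sampler is polynomial-time in the input and the coins -/
def S_POLY : Prop := ∀ (α : Type) [TEnc α] (m K a t : α → ℕ) (q : α → List Bool → Bool)
  (b₀ : α → List Bool), UPoly m → UPoly K → UPoly a → UPoly t →
  (∃ p : Polynomial ℕ, ∀ x, 2 ^ a x ≤ p.eval (sz x)) →
  Poly (fun p : α × List Bool => q p.1 p.2) → Poly b₀ →
  Poly (fun p : α × List Bool => core (m p.1) (K p.1) (a p.1) (t p.1) (q p.1) (b₀ p.1) p.2)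

/-! ### Simplicial complexes -/

/-- A simplicial complex of dimension at least one, given by the list of its (nonempty) faces; the
vertices are natural numbers smaller than the number of faces, every face is listed in increasing
order. -/
structure IsComplex (Δ : List (List ℕ)) : Prop where
  nodup : Δ.Nodup
  sorted : ∀ σ ∈ Δ, σ.Pairwise (· < ·)
  ne : ∀ σ ∈ Δ, σ ≠ []
  closed : ∀ σ ∈ Δ, ∀ τ : List ℕ, τ.Sublist σ → τ ≠ [] → τ ∈ Δ
  small : ∀ σ ∈ Δ, ∀ v ∈ σ, v < Δ.length
  dim : ∃ σ ∈ Δ, 2 ≤ σ.length

/-- the maximal number of vertices of a face, i.e. the dimension plus one -/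
def top (Δ : List (List ℕ)) : ℕ := (Δ.map List.length).foldr max 0

/-- the faces of maximal dimension `d` -/
def tops (Δ : List (List ℕ)) : List (List ℕ) := Δ.filter (fun σ => decide (σ.length = top Δ))

/-- the faces of dimension `d - 1` -/
def ridges (Δ : List (List ℕ)) : List (List ℕ) :=
  Δ.filter (fun σ => decide (σ.length + 1 = top Δ))

/-- the coefficient of `τ` in the boundary of `σ` -/
def coef (τ σ : List ℕ) : ℤ :=
  ((List.range σ.length).map
    (fun i => if σ.eraseIdx i = τ then (if i % 2 = 0 then (1 : ℤ) else -1) else 0)).sum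

/-- the column of the boundary map `∂_d` (over `ℚ`) at the face `σ`; the rows are the faces of
dimension `d - 1` -/
def col (Δ : List (List ℕ)) (σ : List ℕ) : {τ : List ℕ // τ ∈ ridges Δ} → ℚ :=
  fun τ => (coef τ.1 σ : ℚ)

/-- the top faces of the subcomplex `Y` -/
def topSet (Δ Y : List (List ℕ)) : Set (List ℕ) := {σ | σ ∈ Y ∧ σ.length = top Δ}

/-- `Y` (a sublist of the list of the faces) is a spanning tree of `Δ`: it contains all faces of
dimension smaller than `d`, and the columns of its faces of dimension `d` are a basis of the column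
space of `∂_d`. -/
def IsTree (Δ Y : List (List ℕ)) : Prop :=
  Y.Sublist Δ ∧ (∀ σ ∈ Δ, σ.length < top Δ → σ ∈ Y) ∧
  LinearIndepOn ℚ (col Δ) (topSet Δ Y) ∧
  Submodule.span ℚ (col Δ '' topSet Δ Y) = Submodule.span ℚ (col Δ '' {σ | σ ∈ tops Δ})

open scoped Classical in
/-- the spanning trees -/
noncomputable def trees (Δ : List (List ℕ)) : Finset (List (List ℕ)) :=
  Δ.sublists.toFinset.filter (IsTree Δ)

/-! ### The tests -/

/-- the entries of `l` at the positions of the ones of `b` -/
def pick (b : List Bool) (l : List (List ℕ)) : List (List ℕ) :=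
  ((b.zip l).filter (fun p => p.1)).map (fun p => p.2)

/-- the matrix of the boundary map with columns `S` -/
def rowsOf (Δ S : List (List ℕ)) : List (List ℤ) :=
  (ridges Δ).map (fun τ => S.map (fun σ => coef τ σ))

/-- linear independence of the columns of `S` -/
def indepL (Δ S : List (List ℕ)) : Bool :=
  (List.range S.length).all (fun j => !(HF (rowsOf Δ S) [] (eL S.length j)).isSome)

/-- the greedy basis -/
def greedy (Δ : List (List ℕ)) : List Bool :=
  ((tops Δ).foldl (fun (s : List Bool × List (List ℕ)) σ =>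
    if indepL Δ (s.2 ++ [σ]) = true then (s.1 ++ [true], s.2 ++ [σ]) else (s.1 ++ [false], s.2))
    ([], [])).1

/-- the number of ones -/
def ones (b : List Bool) : ℕ := (b.filter (fun x => x)).length

/-- the test for bases -/
def qB (Δ : List (List ℕ)) (b : List Bool) : Bool :=
  decide (b.length = (tops Δ).length) && (decide (ones b = ones (greedy Δ)) &&
    indepL Δ (pick b (tops Δ)))

/-- the tree of a base -/
def outB (Δ : List (List ℕ)) (b : List Bool) : List (List ℕ) :=
  Δ.filter (fun σ => decide (σ.length < top Δ) || decide (σ ∈ pick b (tops Δ)))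

/-- the exponent `K` -/
def KK (Δ : List (List ℕ)) : ℕ := (Δ.length + 1) ^ 2

/-- the number of bits of an index -/
def aa (Δ : List (List ℕ)) : ℕ := Nat.size (tops Δ).length

/-- the number of steps -/
def tt (Δ : List (List ℕ)) : ℕ := 4 * 4 ^ aa Δ * (KK Δ + (tops Δ).length)

/-- the sampler -/
def samp (Δ : List (List ℕ)) (r : List Bool) : Option (List (List ℕ)) :=
  (core (tops Δ).length (KK Δ) (aa Δ) (tt Δ) (qB Δ) (greedy Δ) r).map (outB Δ)

/-- IND: the independence test is correct -/
def S_IND : Prop := ∀ Δ, IsComplex Δ → ∀ S : List (List ℕ), S.Sublist (tops Δ) →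
  (indepL Δ S = true ↔ LinearIndepOn ℚ (col Δ) {σ | σ ∈ S})

/-- QB: the bases -/
def S_QB : Prop := ∀ Δ, IsComplex Δ →
  qB Δ (greedy Δ) = true ∧
  (∀ b, qB Δ b = true → b.length = (tops Δ).length) ∧
  PI (tops Δ).length (qB Δ) ∧
  (∀ b ∈ bs (tops Δ).length (qB Δ), outB Δ b ∈ trees Δ) ∧
  (∀ b ∈ bs (tops Δ).length (qB Δ), ∀ b' ∈ bs (tops Δ).length (qB Δ),
    outB Δ b = outB Δ b' → b = b') ∧
  (∀ Y ∈ trees Δ, ∃ b ∈ bs (tops Δ).length (qB Δ), outB Δ b = Y)

/-- PQ: the parameters of the sampler are polynomial-time computable -/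
def S_PQ : Prop := UPoly (fun Δ : List (List ℕ) => (tops Δ).length) ∧ UPoly KK ∧ UPoly aa ∧
  UPoly tt ∧ (∃ p : Polynomial ℕ, ∀ Δ, 2 ^ aa Δ ≤ p.eval (sz Δ)) ∧
  Poly (fun p : List (List ℕ) × List Bool => qB p.1 p.2) ∧ Poly greedy ∧
  Poly (fun p : List (List ℕ) × List Bool => outB p.1 p.2)

end Pool.Agent.W999.ES
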