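import Pool.Agent.W999.ES.Basic

/-! Project ES: bit strings and finite sets. -/

set_option autoImplicit false

namespace Pool.Agent.W999.ES

open Finset

/-- the set of a bit string -/
def dec (m : ℕ) (b : List Bool) : Finset (Fin m) :=
  Finset.univ.filter (fun i : Fin m => b.getD i false = true)

/-- the bit string of a set -/
def enc (m : ℕ) (B : Finset (Fin m)) : List Bool := List.ofFn (fun i : Fin m => decide (i ∈ B))

theorem mem_dec {m : ℕ} {b : List Bool} {i : Fin m} :
    i ∈ dec m b ↔ b.getD i false = true := by simp [dec]

theorem length_enc {m : ℕ} (B : Finset (Fin m)) : (enc m B).length = m := by simp [enc]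

theorem dec_enc {m : ℕ} (B : Finset (Fin m)) : dec m (enc m B) = B := by
  ext i
  rw [mem_dec, enc]
  have : (i : ℕ) < (List.ofFn (fun i : Fin m => decide (i ∈ B))).length := by simp
  rw [List.getD_eq_getElem _ _ this]
  simp

theorem enc_dec {m : ℕ} {b : List Bool} (hb : b.length = m) : enc m (dec m b) = b := by
  apply List.ext_getElem
  · rw [length_enc, hb]
  · intro i h1 h2
    have hi : i < m := by omega
    simp only [enc, List.getElem_ofFn, mem_dec]
    rw [List.getD_eq_getElem _ _ h2]
    simp

theorem dec_inj {m : ℕ} {b b' : List Bool} (hb : b.length = m) (hb' : b'.length = m)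
    (h : dec m b = dec m b') : b = b' := by
  rw [← enc_dec hb, ← enc_dec hb', h]

@[simp] theorem pick_nil_left (l : List (List ℕ)) : pick [] l = [] := rfl

@[simp] theorem pick_nil_right (b : List Bool) : pick b [] = [] := by simp [pick]

@[simp] theorem pick_cons (x : Bool) (b : List Bool) (σ : List ℕ) (l : List (List ℕ)) :
    pick (x :: b) (σ :: l) = if x = true then σ :: pick b l else pick b l := by
  cases x <;> simp [pick]

theorem pick_append {b : List Bool} {l : List (List ℕ)} (h : b.length = l.length) (b' : List Bool)
    (l' : List (List ℕ)) : pick (b ++ b') (l ++ l') = pick b l ++ pick b' l' := by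
  simp only [pick]
  rw [List.zip_append h, List.filter_append, List.map_append]

theorem pick_sublist (b : List Bool) (l : List (List ℕ)) : (pick b l).Sublist l := by
  induction b generalizing l with
  | nil => simp
  | cons x b ih =>
    cases l with
    | nil => simp
    | cons σ l =>
      rw [pick_cons]
      split_ifs
      · exact (ih l).cons_cons σ
      · exact (ih l).cons σ

theorem length_pick {b : List Bool} {l : List (List ℕ)} (h : b.length = l.length) :
    (pick b l).length = ones b := by
  induction b generalizing l with
  | nil => simp [ones]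
  | cons x b ih =>
    cases l with
    | nil => simp at h
    | cons σ l =>
      rw [pick_cons]
      have := ih (l := l) (by simpa using h)
      unfold ones at this ⊢
      cases x <;> simp [this]

theorem mem_pick {b : List Bool} {l : List (List ℕ)} (h : b.length = l.length) {σ : List ℕ} :
    σ ∈ pick b l ↔ ∃ i : Fin l.length, i ∈ dec l.length b ∧ l[i] = σ := by
  simp only [pick, List.mem_map, List.mem_filter, Prod.exists, exists_eq_right, mem_dec]
  constructor
  · intro h1
    obtain ⟨i, hi, h1⟩ := List.mem_iff_getElem.1 h1
    rw [List.getElem_zip, Prod.mk.injEq] at h1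
    have hi' : i < l.length := by rw [List.length_zip] at hi; omega
    refine ⟨⟨i, hi'⟩, ?_, h1.2⟩
    rw [List.getD_eq_getElem _ _ (by simp; omega)]
    exact h1.1
  · rintro ⟨i, h1, h2⟩
    have hi : (i : ℕ) < l.length := i.2
    have hib : (i : ℕ) < b.length := by omega
    refine List.mem_iff_getElem.2 ⟨i, by rw [List.length_zip]; omega, ?_⟩
    rw [List.getElem_zip, Prod.mk.injEq]
    rw [List.getD_eq_getElem _ _ hib] at h1
    exact ⟨h1, h2⟩

theorem pick_set {b : List Bool} {l : List (List ℕ)} (h : b.length = l.length) :
    {σ | σ ∈ pick b l} = (fun i : Fin l.length => l[i]) '' (dec l.length b : Set (Fin l.length)) := by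
  ext σ
  rw [Set.mem_ofPred_eq, mem_pick h]
  simp

theorem card_dec {b : List Bool} {l : List (List ℕ)} (h : b.length = l.length) (hl : l.Nodup) :
    (dec l.length b).card = ones b := by
  rw [← length_pick h]
  have h1 : (pick b l).Nodup := (pick_sublist b l).nodup hl
  rw [← List.toFinset_card_of_nodup h1]
  have h2 : (pick b l).toFinset = (dec l.length b).image (fun i : Fin l.length => l[i]) := by
    ext σ
    rw [List.mem_toFinset, mem_pick h]
    simp
  rw [h2, Finset.card_image_of_injective]
  intro i j hij
  simp only at hij
  exact Fin.ext ((List.Nodup.getElem_inj_iff hl).1 hij)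

/-- adjacent sets come from adjacent bit strings -/
theorem dec_swap {m : ℕ} {a b : List Bool} (ha : a.length = m) (hb : b.length = m)
    (hc : (dec m a).card = (dec m b).card) (h : (dec m a \ dec m b).card = 1) :
    b ≠ a ∧ ∃ i < m, ∃ e < m, b = swapB m i e a := by
  obtain ⟨x, hx⟩ := card_eq_one.1 h
  have h2 : (dec m b \ dec m a).card = 1 := by
    rw [← h]
    exact (Finset.card_sdiff_comm hc).symm
  obtain ⟨y, hy⟩ := card_eq_one.1 h2
  have hx1 : x ∈ dec m a \ dec m b := by rw [hx]; simp
  have hy1 : y ∈ dec m b \ dec m a := by rw [hy]; simp
  rw [mem_sdiff] at hx1 hy1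
  refine ⟨?_, x, x.2, y, y.2, ?_⟩
  · rintro rfl
    exact hx1.2 hx1.1
  · have hiff : ∀ z : Fin m, z ∈ dec m b ↔ (z = y ∨ (z ≠ x ∧ z ∈ dec m a)) := by
      intro z
      constructor
      · intro hz
        by_cases hza : z ∈ dec m a
        · right
          refine ⟨?_, hza⟩
          rintro rfl
          exact hx1.2 hz
        · left
          have : z ∈ dec m b \ dec m a := mem_sdiff.2 ⟨hz, hza⟩
          rw [hy] at this
          simpa using this
      · rintro (rfl | ⟨h3, h4⟩)
        · exact hy1.1
        · by_contra h5
          have : z ∈ dec m a \ dec m b := mem_sdiff.2 ⟨h4, h5⟩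
          rw [hx] at this
          exact h3 (by simpa using this)
    have hxy : x ≠ y := by
      rintro rfl
      exact hx1.2 hy1.1
    simp only [mem_dec] at hiff hx1 hy1
    unfold swapB
    rw [if_pos ⟨x.2, y.2⟩]
    apply List.ext_getElem
    · simp [hb]
    · intro j h3 h4
      have hj : j < m := by omega
      have h5 := hiff ⟨j, hj⟩
      simp only at h5
      rw [List.getD_eq_getElem _ _ h3] at h5
      simp only [List.getElem_map, List.getElem_range]
      rw [Bool.eq_iff_iff, h5]
      by_cases h6 : j = x
      · subst h6
        rw [if_pos rfl]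
        constructor
        · rintro (h7 | ⟨h7, _⟩)
          · exact absurd h7 (by intro h8; exact hxy h8)
          · exact absurd rfl h7
        · intro h7
          exact absurd h7 hy1.2
      · rw [if_neg h6]
        by_cases h7 : j = y
        · subst h7
          rw [if_pos rfl]
          constructor
          · intro _
            exact hx1.1
          · intro _
            left
            rfl
        · rw [if_neg h7]
          constructor
          · rintro (h8 | ⟨_, h8⟩)
            · exact absurd (congrArg Fin.val h8) h7
            · exact h8
          · intro h8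
            right
            exact ⟨fun h9 => h6 (congrArg Fin.val h9), h8⟩

end Pool.Agent.W999.ES
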