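import Pool.Agent.W999.ES.Lin
import Pool.Agent.W999.ES.Bits

/-! Project ES: bases and spanning trees. -/

set_option autoImplicit false

namespace Pool.Agent.W999.ES

open Finset Submodule Module

/-- one step of the greedy algorithm -/
def gstep (Δ : List (List ℕ)) (s : List Bool × List (List ℕ)) (σ : List ℕ) :
    List Bool × List (List ℕ) :=
  if indepL Δ (s.2 ++ [σ]) = true then (s.1 ++ [true], s.2 ++ [σ]) else (s.1 ++ [false], s.2)

theorem greedy_eq (Δ : List (List ℕ)) : greedy Δ = ((tops Δ).foldl (gstep Δ) ([], [])).1 := rfl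

/-- the invariant of the greedy algorithm -/
structure GInv (Δ l : List (List ℕ)) (s : List Bool × List (List ℕ)) : Prop where
  len : s.1.length = l.length
  pick : s.2 = pick s.1 l
  ind : LinearIndepOn ℚ (col Δ) {σ | σ ∈ s.2}
  span : ∀ σ ∈ l, col Δ σ ∈ span ℚ (col Δ '' {σ | σ ∈ s.2})

theorem tops_nodup {Δ : List (List ℕ)} (h : IsComplex Δ) : (tops Δ).Nodup := h.nodup.filter _

theorem ginv (hind : S_IND) {Δ : List (List ℕ)} (hΔ : IsComplex Δ) : ∀ l : List (List ℕ),
    l <+: tops Δ → GInv Δ l (l.foldl (gstep Δ) ([], [])) := by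
  intro l
  induction l using List.reverseRecOn with
  | nil =>
    intro _
    exact ⟨rfl, rfl, by simp, by simp⟩
  | append_singleton l σ ih =>
    intro hl
    have hl' : l <+: tops Δ := (List.prefix_append l [σ]).trans hl
    obtain ⟨h1, h2, h3, h4⟩ := ih hl'
    rw [List.foldl_append, List.foldl_cons, List.foldl_nil]
    set s := l.foldl (gstep Δ) ([], []) with hs
    have hsub : s.2.Sublist l := by rw [h2]; exact pick_sublist _ _
    have hsub2 : (s.2 ++ [σ]).Sublist (tops Δ) := (hsub.append_right [σ]).trans hl.sublist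
    have hnd : (l ++ [σ]).Nodup := hl.sublist.nodup (tops_nodup hΔ)
    have hσl : σ ∉ l := by
      rw [List.nodup_append] at hnd
      intro h
      exact hnd.2.2 σ h σ (by simp) rfl
    have hσ : σ ∉ s.2 := fun h => hσl (hsub.subset h)
    have hset : {τ | τ ∈ s.2 ++ [σ]} = insert σ {τ | τ ∈ s.2} := by
      ext τ
      simp only [Set.mem_ofPred_eq, List.mem_append, List.mem_singleton, Set.mem_insert_iff]
      tauto
    have hi := hind Δ hΔ (s.2 ++ [σ]) hsub2
    rw [hset] at hi
    unfold gstep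
    by_cases hc : indepL Δ (s.2 ++ [σ]) = true
    · rw [if_pos hc]
      refine ⟨by simp [h1], ?_, ?_, ?_⟩
      · simp only
        rw [pick_append h1, ← h2]
        rfl
      · simp only
        rw [hset]
        exact hi.1 hc
      · simp only
        rw [hset]
        intro τ hτ
        rw [List.mem_append, List.mem_singleton] at hτ
        rcases hτ with hτ | rfl
        · exact span_mono (Set.image_mono (Set.subset_insert _ _)) (h4 τ hτ)
        · exact subset_span ⟨τ, Set.mem_insert _ _, rfl⟩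
    · rw [if_neg hc]
      refine ⟨by simp [h1], ?_, h3, ?_⟩
      · simp only
        rw [pick_append h1, ← h2]
        simp
      · simp only
        intro τ hτ
        rw [List.mem_append, List.mem_singleton] at hτ
        rcases hτ with hτ | rfl
        · exact h4 τ hτ
        · by_contra hn
          exact hc (hi.2 (h3.insert hn))

/-- the column of the face number `i` -/
def wcol (Δ : List (List ℕ)) (i : Fin (tops Δ).length) : {τ : List ℕ // τ ∈ ridges Δ} → ℚ :=
  col Δ (tops Δ)[i]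

theorem tops_inj {Δ : List (List ℕ)} (hΔ : IsComplex Δ) :
    Function.Injective (fun i : Fin (tops Δ).length => (tops Δ)[i]) := by
  intro i j hij
  simp only at hij
  exact Fin.ext ((List.Nodup.getElem_inj_iff (tops_nodup hΔ)).1 hij)

theorem ind_iff {Δ : List (List ℕ)} (hΔ : IsComplex Δ) {b : List Bool}
    (hb : b.length = (tops Δ).length) :
    LinearIndepOn ℚ (col Δ) {σ | σ ∈ pick b (tops Δ)} ↔
      LinearIndepOn ℚ (wcol Δ) (dec (tops Δ).length b : Set (Fin (tops Δ).length)) := by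
  rw [pick_set hb]
  constructor
  · intro h
    exact h.comp_of_image (tops_inj hΔ).injOn
  · intro h
    exact LinearIndepOn.image_of_comp _ _ h

theorem image_pick {Δ : List (List ℕ)} {b : List Bool} (hb : b.length = (tops Δ).length) :
    col Δ '' {σ | σ ∈ pick b (tops Δ)} =
      wcol Δ '' (dec (tops Δ).length b : Set (Fin (tops Δ).length)) := by
  rw [pick_set hb, Set.image_image]
  rfl

theorem image_tops (Δ : List (List ℕ)) :
    col Δ '' {σ | σ ∈ tops Δ} = wcol Δ '' (Finset.univ : Finset (Fin (tops Δ).length)) := by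
  ext x
  simp only [Set.mem_image, Set.mem_ofPred_eq, Finset.coe_univ, Set.mem_univ, true_and, wcol]
  constructor
  · rintro ⟨σ, hσ, rfl⟩
    obtain ⟨i, hi, rfl⟩ := List.mem_iff_getElem.1 hσ
    exact ⟨⟨i, hi⟩, rfl⟩
  · rintro ⟨i, rfl⟩
    exact ⟨_, List.getElem_mem _, rfl⟩

/-- the rank -/
noncomputable def rk (Δ : List (List ℕ)) : ℕ :=
  finrank ℚ (span ℚ (wcol Δ '' (Finset.univ : Finset (Fin (tops Δ).length))))

theorem greedy_spec (hind : S_IND) {Δ : List (List ℕ)} (hΔ : IsComplex Δ) :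
    (greedy Δ).length = (tops Δ).length ∧ ones (greedy Δ) = rk Δ ∧
      indepL Δ (pick (greedy Δ) (tops Δ)) = true := by
  obtain ⟨h1, h2, h3, h4⟩ := ginv hind hΔ (tops Δ) (List.prefix_refl _)
  rw [← greedy_eq] at h1 h2
  rw [h2] at h3 h4
  refine ⟨h1, ?_, (hind Δ hΔ _ (pick_sublist _ _)).2 h3⟩
  rw [ind_iff hΔ h1] at h3
  rw [image_pick h1] at h4
  have hspan : span ℚ (wcol Δ '' (dec (tops Δ).length (greedy Δ) : Set (Fin (tops Δ).length))) =
      span ℚ (wcol Δ '' (Finset.univ : Finset (Fin (tops Δ).length))) := by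
    apply le_antisymm
    · exact span_mono (Set.image_mono (by simp))
    · rw [span_le]
      rintro _ ⟨i, _, rfl⟩
      exact h4 _ (List.getElem_mem _)
  rw [← card_dec h1 (tops_nodup hΔ), ← fr h3, rk, hspan]

theorem qB_iff (hind : S_IND) {Δ : List (List ℕ)} (hΔ : IsComplex Δ) (b : List Bool) :
    qB Δ b = true ↔ b.length = (tops Δ).length ∧ (dec (tops Δ).length b).card = rk Δ ∧
      LinearIndepOn ℚ (wcol Δ) (dec (tops Δ).length b : Set (Fin (tops Δ).length)) := by
  unfold qB
  rw [Bool.and_eq_true, Bool.and_eq_true, decide_eq_true_eq, decide_eq_true_eq,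
    (greedy_spec hind hΔ).2.1]
  constructor
  · rintro ⟨h1, h2, h3⟩
    rw [hind Δ hΔ _ (pick_sublist _ _), ind_iff hΔ h1] at h3
    exact ⟨h1, by rw [card_dec h1 (tops_nodup hΔ), h2], h3⟩
  · rintro ⟨h1, h2, h3⟩
    rw [← ind_iff hΔ h1, ← hind Δ hΔ _ (pick_sublist _ _)] at h3
    exact ⟨h1, by rw [← card_dec h1 (tops_nodup hΔ), h2], h3⟩

theorem mem_bs_iff (hind : S_IND) {Δ : List (List ℕ)} (hΔ : IsComplex Δ) (b : List Bool) :
    b ∈ bs (tops Δ).length (qB Δ) ↔ b.length = (tops Δ).length ∧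
      (dec (tops Δ).length b).card = rk Δ ∧
      LinearIndepOn ℚ (wcol Δ) (dec (tops Δ).length b : Set (Fin (tops Δ).length)) := by
  rw [mem_bs, qB_iff hind hΔ]
  tauto

theorem poincare (hpoi : S_POI) (hind : S_IND) {Δ : List (List ℕ)} (hΔ : IsComplex Δ) :
    PI (tops Δ).length (qB Δ) := by
  intro f hf
  set m := (tops Δ).length with hm
  have hlen : ∀ b ∈ bs m (qB Δ), b.length = m := fun b hb => (mem_bs.1 hb).1
  have hinj : Set.InjOn (dec m) (bs m (qB Δ) : Set (List Bool)) := by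
    intro b hb b' hb' h
    exact dec_inj (hlen b hb) (hlen b' hb') h
  set 𝓑 : Finset (Finset (Fin m)) := (bs m (qB Δ)).image (dec m) with h𝓑
  have hmem : ∀ B, B ∈ 𝓑 ↔ B.card = rk Δ ∧ LinearIndepOn ℚ (wcol Δ) (B : Set (Fin m)) := by
    intro B
    rw [h𝓑, mem_image]
    constructor
    · rintro ⟨b, hb, rfl⟩
      exact ((mem_bs_iff hind hΔ b).1 hb).2
    · intro h
      refine ⟨enc m B, ?_, dec_enc B⟩
      rw [mem_bs_iff hind hΔ]
      have e : dec (tops Δ).length (enc m B) = B := dec_enc B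
      rw [e]
      exact ⟨length_enc B, h⟩
  have hsum : ∀ g : List Bool → ℝ, ∑ B ∈ 𝓑, g (enc m B) = ∑ b ∈ bs m (qB Δ), g b := by
    intro g
    rw [h𝓑, sum_image hinj]
    refine sum_congr rfl fun b hb => ?_
    rw [enc_dec (hlen b hb)]
  have hne : 𝓑.Nonempty := by
    refine ⟨dec m (greedy Δ), ?_⟩
    rw [h𝓑, mem_image]
    refine ⟨greedy Δ, ?_, rfl⟩
    have hg := greedy_spec hind hΔ
    rw [mem_bs_iff hind hΔ]
    refine ⟨hg.1, ?_, ?_⟩
    · rw [card_dec hg.1 (tops_nodup hΔ), hg.2.1]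
    · rw [← ind_iff hΔ hg.1, ← hind Δ hΔ _ (pick_sublist _ _)]
      exact hg.2.2
  have hex : ∀ A ∈ 𝓑, ∀ B ∈ 𝓑, ∀ x ∈ A \ B, ∃ y ∈ B \ A, insert y (A.erase x) ∈ 𝓑 := by
    intro A hA B hB x hx
    rw [hmem] at hA hB
    rw [mem_sdiff] at hx
    have h1 : LinearIndepOn ℚ (wcol Δ) ((A.erase x : Finset (Fin m)) : Set (Fin m)) :=
      hA.2.mono (by exact_mod_cast erase_subset x A)
    have h2 : (A.erase x).card < B.card := by
      rw [card_erase_of_mem hx.1, hA.1, hB.1]
      have : 0 < A.card := card_pos.2 ⟨x, hx.1⟩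
      omega
    obtain ⟨y, hy1, hy2, hy3⟩ := aug h1 hB.2 h2
    have hyx : y ≠ x := by
      rintro rfl
      exact hx.2 hy1
    have hyA : y ∉ A := fun h => hy2 (mem_erase.2 ⟨hyx, h⟩)
    refine ⟨y, mem_sdiff.2 ⟨hy1, hyA⟩, ?_⟩
    rw [hmem]
    constructor
    · rw [card_insert_of_notMem hy2, card_erase_of_mem hx.1, ← hA.1]
      have : 0 < A.card := card_pos.2 ⟨x, hx.1⟩
      omega
    · rw [coe_insert]
      exact hy3
  have key := hpoi m (rk Δ) 𝓑 hne (fun B hB => ((hmem B).1 hB).1) hex (fun B => f (enc m B))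
    (by rw [hsum f]; exact hf)
  rw [hsum (fun b => f b ^ 2)] at key
  refine key.trans ?_
  gcongr
  rw [← hsum (fun b => ∑ b' ∈ (bs m (qB Δ)).filter
    (fun b' => b' ≠ b ∧ ∃ i < m, ∃ e < m, b' = swapB m i e b), (f b - f b') ^ 2)]
  refine sum_le_sum fun B hB => ?_
  have h3 : ∀ B' ∈ 𝓑.filter (fun B' => (B \ B').card = 1), enc m B' ∈ (bs m (qB Δ)).filter
      (fun b' => b' ≠ enc m B ∧ ∃ i < m, ∃ e < m, b' = swapB m i e (enc m B)) := by
    intro B' hB'
    rw [mem_filter] at hB' ⊢
    have h4 := (hmem B').1 hB'.1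
    have h5 := (hmem B).1 hB
    refine ⟨?_, ?_⟩
    · rw [mem_bs_iff hind hΔ]
      have e : dec (tops Δ).length (enc m B') = B' := dec_enc B'
      rw [e]
      exact ⟨length_enc B', h4⟩
    · apply dec_swap (length_enc B) (length_enc B')
      · rw [dec_enc, dec_enc, h4.1, h5.1]
      · rw [dec_enc, dec_enc]
        exact hB'.2
  have h6 : Set.InjOn (enc m) (𝓑.filter (fun B' => (B \ B').card = 1) : Set (Finset (Fin m))) := by
    intro B1 _ B2 _ h
    rw [← dec_enc B1, ← dec_enc B2, h]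
  rw [← sum_image (f := fun b' => (f (enc m B) - f b') ^ 2) h6]
  refine sum_le_sum_of_subset_of_nonneg ?_ (fun _ _ _ => sq_nonneg _)
  intro b' hb'
  rw [mem_image] at hb'
  obtain ⟨B', hB', rfl⟩ := hb'
  exact h3 B' hB'

theorem mem_tops {Δ : List (List ℕ)} {σ : List ℕ} : σ ∈ tops Δ ↔ σ ∈ Δ ∧ σ.length = top Δ := by
  simp [tops]

theorem length_le_top {Δ : List (List ℕ)} {σ : List ℕ} (h : σ ∈ Δ) : σ.length ≤ top Δ := by
  unfold top
  induction Δ with
  | nil => simp at h
  | cons τ Δ ih =>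
    rw [List.mem_cons] at h
    rw [List.map_cons, List.foldr_cons]
    rcases h with rfl | h
    · exact le_max_left _ _
    · exact (ih h).trans (le_max_right _ _)

theorem mem_outB {Δ : List (List ℕ)} {b : List Bool} {σ : List ℕ} :
    σ ∈ outB Δ b ↔ σ ∈ Δ ∧ (σ.length < top Δ ∨ σ ∈ pick b (tops Δ)) := by
  simp [outB]

theorem topSet_outB (Δ : List (List ℕ)) (b : List Bool) :
    topSet Δ (outB Δ b) = {σ | σ ∈ pick b (tops Δ)} := by
  ext σ
  rw [topSet, Set.mem_ofPred_eq, Set.mem_ofPred_eq, mem_outB]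
  constructor
  · rintro ⟨⟨_, h1⟩, h2⟩
    rcases h1 with h1 | h1
    · omega
    · exact h1
  · intro h
    have := mem_tops.1 ((pick_sublist b (tops Δ)).subset h)
    exact ⟨⟨this.1, Or.inr h⟩, this.2⟩

theorem mem_trees {Δ Y : List (List ℕ)} : Y ∈ trees Δ ↔ IsTree Δ Y := by
  simp only [trees, Finset.mem_filter, List.mem_toFinset, List.mem_sublists]
  exact ⟨fun h => h.2, fun h => ⟨h.1, h⟩⟩

theorem sublist_eq_filter {Y l : List (List ℕ)} (h : Y.Sublist l) (hl : l.Nodup) : l.filter (fun x => decide (x ∈ Y)) = Y := by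
  induction h with
  | slnil => simp
  | @cons Y l a h ih =>
    rw [List.nodup_cons] at hl
    rw [List.filter_cons_of_neg, ih hl.2]
    simp only [decide_eq_true_eq]
    intro ha
    exact hl.1 (h.subset ha)
  | @cons_cons Y l a h ih =>
    rw [List.nodup_cons] at hl
    rw [List.filter_cons_of_pos (by simp)]
    congr 1
    rw [← ih hl.2]
    refine List.filter_congr fun x hx => ?_
    rw [ih hl.2]
    have : x ≠ a := by
      rintro rfl
      exact hl.1 hx
    simp [this]

theorem qb (hpoi : S_POI) (hind : S_IND) : S_QB := by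
  intro Δ hΔ
  set m := (tops Δ).length with hm
  have hnd := tops_nodup hΔ
  have hspanrk : ∀ b : List Bool, b.length = m → (dec m b).card = rk Δ →
      LinearIndepOn ℚ (wcol Δ) (dec m b : Set (Fin m)) →
      span ℚ (wcol Δ '' (dec m b : Set (Fin m))) =
        span ℚ (wcol Δ '' (Finset.univ : Finset (Fin m))) := by
    intro b _ h1 h2
    exact span_of_card h2 (subset_univ _) h1.symm
  refine ⟨?_, ?_, poincare hpoi hind hΔ, ?_, ?_, ?_⟩
  · have hg := greedy_spec hind hΔ
    unfold qB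
    rw [Bool.and_eq_true, Bool.and_eq_true, decide_eq_true_eq, decide_eq_true_eq]
    exact ⟨hg.1, rfl, hg.2.2⟩
  · intro b hb
    exact ((qB_iff hind hΔ b).1 hb).1
  · intro b hb
    rw [mem_bs_iff hind hΔ] at hb
    rw [mem_trees]
    refine ⟨List.filter_sublist, ?_, ?_, ?_⟩
    · intro σ hσ h
      exact mem_outB.2 ⟨hσ, Or.inl h⟩
    · rw [topSet_outB, ind_iff hΔ hb.1]
      exact hb.2.2
    · rw [topSet_outB, image_pick hb.1, image_tops]
      exact hspanrk b hb.1 hb.2.1 hb.2.2
  · intro b hb b' hb' h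
    rw [mem_bs_iff hind hΔ] at hb hb'
    have h1 := topSet_outB Δ b
    rw [h, topSet_outB, pick_set hb.1, pick_set hb'.1] at h1
    have h2 := Set.image_injective.2 (tops_inj hΔ) h1
    exact dec_inj hb.1 hb'.1 (by exact_mod_cast h2.symm)
  · intro Y hY
    rw [mem_trees] at hY
    obtain ⟨hY1, hY2, hY3, hY4⟩ := hY
    set b : List Bool := (tops Δ).map (fun σ => decide (σ ∈ Y)) with hb
    have hbl : b.length = m := by simp [hb, hm]
    have hpick : {σ | σ ∈ pick b (tops Δ)} = topSet Δ Y := by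
      ext σ
      rw [Set.mem_ofPred_eq, mem_pick hbl, topSet, Set.mem_ofPred_eq]
      constructor
      · rintro ⟨i, hi, rfl⟩
        rw [mem_dec, hb, List.getD_eq_getElem _ _ (by simp), List.getElem_map,
          decide_eq_true_eq] at hi
        exact ⟨hi, (mem_tops.1 (List.getElem_mem _)).2⟩
      · rintro ⟨h1, h2⟩
        obtain ⟨i, hi, h3⟩ := List.mem_iff_getElem.1 (mem_tops.2 ⟨hY1.subset h1, h2⟩)
        refine ⟨⟨i, hi⟩, ?_, h3⟩
        rw [mem_dec, hb, List.getD_eq_getElem _ _ (by simpa using hi), List.getElem_map,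
          decide_eq_true_eq]
        simp only
        rw [h3]
        exact h1
    rw [← hpick] at hY3 hY4
    rw [image_pick hbl, image_tops] at hY4
    rw [ind_iff hΔ hbl] at hY3
    refine ⟨b, ?_, ?_⟩
    · rw [mem_bs_iff hind hΔ]
      refine ⟨hbl, ?_, hY3⟩
      rw [← fr hY3, hY4, rk]
    · conv_rhs => rw [← sublist_eq_filter hY1 hΔ.nodup]
      unfold outB
      refine List.filter_congr fun σ hσ => ?_
      rw [Bool.eq_iff_iff, Bool.or_eq_true, decide_eq_true_eq, decide_eq_true_eq,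
        decide_eq_true_eq]
      have h5 : σ ∈ pick b (tops Δ) ↔ σ ∈ Y ∧ σ.length = top Δ := by
        have := Set.ext_iff.1 hpick σ
        simpa [topSet] using this
      rw [h5]
      have h6 := length_le_top hσ
      constructor
      · rintro (h | h)
        · exact hY2 σ hσ h
        · exact h.1
      · intro h
        rcases Nat.lt_or_ge σ.length (top Δ) with h7 | h7
        · exact Or.inl h7
        · exact Or.inr ⟨h, le_antisymm h6 h7⟩

end Pool.Agent.W999.ES
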