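import Pool.Agent.W999.ES.Defs

/-! Project ES: basic lemmas on bit strings and counting. -/

set_option autoImplicit false

namespace Pool.Agent.W999.ES

open Finset Filter Topology

theorem allB_full {m N : ℕ} (h : 2 ^ m ≤ N) : allB N m = allB (2 ^ m) m ∧
    (allB N m).length = 2 ^ m := by
  induction m generalizing N with
  | zero => simp [allB]
  | succ m ih =>
    have h1 : 2 ^ m ≤ N := le_trans (Nat.pow_le_pow_right (by norm_num) (by omega)) h
    have h2 : 2 ^ m ≤ 2 ^ (m + 1) := Nat.pow_le_pow_right (by norm_num) (by omega)
    have e1 := (ih h1).1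
    have e2 := (ih h2).1
    have e3 := (ih (le_refl (2 ^ m))).2
    have e4 : ((allB (2 ^ m) m).flatMap (fun b => [false :: b, true :: b])).length =
        2 ^ (m + 1) := by
      rw [List.length_flatMap]
      simp [e3, pow_succ]
    constructor
    · simp only [allB]
      rw [e1, e2, List.take_of_length_le (by omega), List.take_of_length_le (by omega)]
    · simp only [allB]
      rw [e1, List.take_of_length_le (by omega), e4]

theorem allB_succ (m : ℕ) : allB (2 ^ (m + 1)) (m + 1) =
    (allB (2 ^ m) m).flatMap (fun b => [false :: b, true :: b]) := by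
  have h2 : 2 ^ m ≤ 2 ^ (m + 1) := Nat.pow_le_pow_right (by norm_num) (by omega)
  have e1 := (allB_full h2).1
  have e3 := (allB_full (le_refl (2 ^ m))).2
  simp only [allB]
  rw [e1, List.take_of_length_le]
  rw [List.length_flatMap]
  simp [e3, pow_succ]

theorem length_allB (m : ℕ) : (allB (2 ^ m) m).length = 2 ^ m := (allB_full le_rfl).2

theorem mem_allB {m : ℕ} {b : List Bool} : b ∈ allB (2 ^ m) m ↔ b.length = m := by
  induction m generalizing b with
  | zero => simp [allB]
  | succ m ih =>
    rw [allB_succ, List.mem_flatMap]
    constructor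
    · rintro ⟨c, hc, hb⟩
      rw [ih] at hc
      simp only [List.mem_cons, List.not_mem_nil, or_false] at hb
      rcases hb with rfl | rfl <;> simp [hc]
    · intro h
      cases b with
      | nil => simp at h
      | cons x b =>
        refine ⟨b, ih.2 (by simpa using h), ?_⟩
        cases x <;> simp

theorem nodup_allB (m : ℕ) : (allB (2 ^ m) m).Nodup := by
  induction m with
  | zero => simp [allB]
  | succ m ih =>
    rw [allB_succ, List.nodup_flatMap]
    refine ⟨fun x _ => by simp, ?_⟩
    refine ih.imp ?_
    intro a b hab
    simp only [Function.onFun, List.disjoint_iff_ne]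
    intro x hx y hy
    simp only [List.mem_cons, List.not_mem_nil, or_false] at hx hy
    rcases hx with rfl | rfl <;> rcases hy with rfl | rfl <;> simp [hab]

/-- the bit strings of length `k` -/
def strs (k : ℕ) : Finset (List Bool) := (allB (2 ^ k) k).toFinset

@[simp] theorem mem_strs {k : ℕ} {r : List Bool} : r ∈ strs k ↔ r.length = k := by
  rw [strs, List.mem_toFinset, mem_allB]

theorem card_strs (k : ℕ) : (strs k).card = 2 ^ k := by
  rw [strs, List.toFinset_card_of_nodup (nodup_allB k), length_allB]

theorem nb_eq_card (k : ℕ) (A : List Bool → Bool) :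
    nb k A = ((strs k).filter (fun r => A r = true)).card := by
  rw [nb, strs, ← List.toFinset_filter, List.toFinset_card_of_nodup ((nodup_allB k).filter _)]

theorem nb_eq_sum (k : ℕ) (A : List Bool → Bool) :
    nb k A = ∑ r ∈ strs k, if A r = true then 1 else 0 := by
  rw [nb_eq_card, card_filter]

theorem nb_congr {k : ℕ} {A B : List Bool → Bool} (h : ∀ r, r.length = k → A r = B r) :
    nb k A = nb k B := by
  rw [nb_eq_sum, nb_eq_sum]
  refine sum_congr rfl fun r hr => ?_
  rw [h r (mem_strs.1 hr)]

theorem nb_le (k : ℕ) (A : List Bool → Bool) : nb k A ≤ 2 ^ k := by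
  rw [nb_eq_card, ← card_strs]
  exact card_filter_le _ _

theorem nb_true (k : ℕ) : nb k (fun _ => true) = 2 ^ k := by
  rw [nb_eq_card, ← card_strs]
  simp

theorem nb_mono {k : ℕ} {A B : List Bool → Bool}
    (h : ∀ r, r.length = k → A r = true → B r = true) : nb k A ≤ nb k B := by
  rw [nb_eq_card, nb_eq_card]
  apply card_le_card
  intro r hr
  rw [mem_filter] at hr ⊢
  exact ⟨hr.1, h r (mem_strs.1 hr.1) hr.2⟩

/-- sums over bit strings of length `k + l` -/
theorem sum_strs_add {R : Type*} [AddCommMonoid R] (k l : ℕ) (f : List Bool → R) :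
    ∑ r ∈ strs (k + l), f r = ∑ u ∈ strs k, ∑ v ∈ strs l, f (u ++ v) := by
  rw [← sum_product']
  symm
  refine sum_bij (fun p _ => p.1 ++ p.2) ?_ ?_ ?_ ?_
  · intro p hp
    rw [mem_product, mem_strs, mem_strs] at hp
    rw [mem_strs, List.length_append, hp.1, hp.2]
  · intro p hp p' hp' h
    rw [mem_product, mem_strs, mem_strs] at hp hp'
    have := List.append_inj h (by rw [hp.1, hp'.1])
    exact Prod.ext this.1 this.2
  · intro r hr
    rw [mem_strs] at hr
    refine ⟨(r.take k, r.drop k), ?_, List.take_append_drop k r⟩
    rw [mem_product, mem_strs, mem_strs, List.length_take, List.length_drop]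
    omega
  · intro p _
    rfl

theorem nb_add (k l : ℕ) (A : List Bool → Bool) :
    nb (k + l) A = ∑ u ∈ strs k, nb l (fun v => A (u ++ v)) := by
  rw [nb_eq_sum, sum_strs_add]
  refine sum_congr rfl fun u _ => ?_
  rw [nb_eq_sum]

/-- conditions on the two parts -/
theorem nb_and (k l : ℕ) (A B : List Bool → Bool) :
    nb (k + l) (fun r => A (r.take k) && B (r.drop k)) = nb k A * nb l B := by
  rw [nb_add, nb_eq_sum, sum_mul]
  refine sum_congr rfl fun u hu => ?_
  rw [mem_strs] at hu
  have : ∀ v : List Bool, (u ++ v).take k = u ∧ (u ++ v).drop k = v := by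
    intro v
    subst hu
    simp
  simp only [this]
  cases h : A u
  · simp only [Bool.false_and]
    rw [nb_eq_sum]
    simp
  · simp

/-- `2 ^ k` pieces -/
theorem nb_take (k l : ℕ) (A : List Bool → Bool) :
    nb (k + l) (fun r => A (r.take k)) = nb k A * 2 ^ l := by
  rw [← nb_true l, ← nb_and]
  simp

theorem nb_drop (k l : ℕ) (B : List Bool → Bool) :
    nb (k + l) (fun r => B (r.drop k)) = 2 ^ k * nb l B := by
  rw [← nb_true k, ← nb_and]
  simp

theorem mem_bs {m : ℕ} {q : List Bool → Bool} {b : List Bool} :
    b ∈ bs m q ↔ b.length = m ∧ q b = true := by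
  rw [bs, List.mem_toFinset, List.mem_filter, mem_allB]

theorem card_bs (m : ℕ) (q : List Bool → Bool) :
    (bs m q).card = ((allB (2 ^ m) m).filter q).length := by
  rw [bs, List.toFinset_card_of_nodup ((nodup_allB m).filter _)]

theorem card_bs_le (m : ℕ) (q : List Bool → Bool) : (bs m q).card ≤ 2 ^ m := by
  rw [card_bs]
  exact (List.length_filter_le _ _).trans (length_allB m).le

/-- `swapB m i e` is an involution -/
theorem swapB_swapB {m i e : ℕ} {b : List Bool} (hb : b.length = m) :
    swapB m i e (swapB m i e b) = b := by
  unfold swapB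
  split_ifs with h
  · apply List.ext_getElem
    · simp [hb]
    · intro j h1 h2
      simp only [List.getElem_map, List.getElem_range]
      have hj : j < m := by omega
      have key : ∀ j < m, (List.map (fun j => b.getD (if j = i then e else if j = e then i else j)
          false) (List.range m)).getD j false =
          b.getD (if j = i then e else if j = e then i else j) false := by
        intro j hj
        rw [List.getD_eq_getElem _ _ (by simpa using hj)]
        simp
      rw [key]
      · rw [← List.getD_eq_getElem _ false h2]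
        congr 1
        split_ifs <;> simp_all
      · split_ifs <;> omega
  · rfl

theorem length_swapB {m i e : ℕ} {b : List Bool} (hb : b.length = m) :
    (swapB m i e b).length = m := by
  unfold swapB
  split_ifs
  · simp
  · exact hb

/-- `stepB m a q c` is an involution on the bases -/
theorem stepB_stepB {m a : ℕ} {q : List Bool → Bool} (c : List Bool) {b : List Bool}
    (hb : b ∈ bs m q) : stepB m a q c (stepB m a q c b) = b := by
  rw [mem_bs] at hb
  unfold stepB
  by_cases h : c.headD false = true
  · simp only [h, if_true]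
    by_cases h2 : q (swapB m (bval (c.tail.take a)) (bval (c.tail.drop a)) b) = true
    · simp only [h2, if_true, swapB_swapB hb.1, hb.2]
    · simp only [h2, if_false, Bool.false_eq_true]
  · simp only [h, if_false, Bool.false_eq_true]

theorem stepB_mem {m a : ℕ} {q : List Bool → Bool} (c : List Bool) {b : List Bool}
    (hb : b ∈ bs m q) : stepB m a q c b ∈ bs m q := by
  rw [mem_bs] at hb ⊢
  unfold stepB
  split_ifs with h1 h2
  · exact ⟨length_swapB hb.1, h2⟩
  · exact hb
  · exact hb

theorem walk_zero (m a : ℕ) (q : List Bool → Bool) (b₀ r : List Bool) :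
    walk m a 0 q b₀ r = b₀ := rfl

theorem walk_succ (m a t : ℕ) (q : List Bool → Bool) (b₀ r : List Bool) :
    walk m a (t + 1) q b₀ r =
      stepB m a q ((r.drop (t * (2 * a + 1))).take (2 * a + 1)) (walk m a t q b₀ r) := by
  unfold walk
  rw [List.range_succ, List.foldl_append]
  rfl

/-- the walk depends on the first `t (2 a + 1)` coins only -/
theorem walk_append (m a t : ℕ) (q : List Bool → Bool) (b₀ : List Bool) {r : List Bool}
    (r' : List Bool) (h : t * (2 * a + 1) ≤ r.length) :
    walk m a t q b₀ (r ++ r') = walk m a t q b₀ r := by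
  induction t with
  | zero => rfl
  | succ t ih =>
    have h1 : t * (2 * a + 1) + (2 * a + 1) ≤ r.length := by
      rw [add_mul, one_mul] at h
      exact h
    rw [walk_succ, walk_succ, ih (by omega)]
    congr 1
    rw [List.drop_append_of_le_length (by omega), List.take_append_of_le_length]
    rw [List.length_drop]
    omega

theorem walk_take (m a t : ℕ) (q : List Bool → Bool) (b₀ : List Bool) {r : List Bool} {l : ℕ}
    (h : t * (2 * a + 1) ≤ l) (hl : l ≤ r.length) :
    walk m a t q b₀ (r.take l) = walk m a t q b₀ r := by
  conv_rhs => rw [← List.take_append_drop l r]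
  rw [walk_append]
  rw [List.length_take]
  omega

theorem walk_mem {m K a t : ℕ} {q : List Bool → Bool} {b₀ : List Bool} (h : Hyp m K a t q b₀)
    (s : ℕ) (r : List Bool) : walk m a s q b₀ r ∈ bs m q := by
  induction s with
  | zero => exact mem_bs.2 ⟨h.len _ h.start, h.start⟩
  | succ s ih =>
    rw [walk_succ]
    exact stepB_mem _ ih

end Pool.Agent.W999.ES
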