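import Pool.Agent.W999.ES.Basic

/-! Project ES: the properties of the sampler (S_CNT -> S_MIX -> S_CELL -> S_CORE). -/

set_option autoImplicit false

namespace Pool.Agent.W999.ES

open Finset Filter Topology

/-- number of coin sequences of the walk leading to `b` -/
def cntW (m a t : ℕ) (q : List Bool → Bool) (b₀ b : List Bool) : ℕ :=
  nb (t * (2 * a + 1)) (fun r => decide (walk m a t q b₀ r = b))

/-- the weights -/
def wtW (m K a t : ℕ) (q : List Bool → Bool) (b₀ : List Bool) : List (List Bool × ℕ) :=
  ((allB (2 ^ m) m).filter q).map (fun b => (b, 2 ^ (K + t * (2 * a + 1)) -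
    (bs m q).card * ((2 ^ K - 1) * cntW m a t q b₀ b)))

theorem sum_cntW {m K a t : ℕ} {q : List Bool → Bool} {b₀ : List Bool} (h : Hyp m K a t q b₀) :
    ∑ b ∈ bs m q, cntW m a t q b₀ b = 2 ^ (t * (2 * a + 1)) := by
  unfold cntW
  simp_rw [nb_eq_sum]
  rw [sum_comm, ← card_strs, card_eq_sum_ones]
  refine sum_congr rfl fun r _ => ?_
  have h1 := walk_mem h t r
  simp only [decide_eq_true_eq]
  rw [sum_ite_eq]
  simp [h1]

theorem list_sum_eq {m : ℕ} {q : List Bool → Bool} (f : List Bool → ℕ) :
    (((allB (2 ^ m) m).filter q).map f).sum = ∑ b ∈ bs m q, f b := by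
  rw [bs, List.sum_toFinset _ ((nodup_allB m).filter _)]

theorem card_bs_pos {m K a t : ℕ} {q : List Bool → Bool} {b₀ : List Bool}
    (h : Hyp m K a t q b₀) : 0 < (bs m q).card :=
  card_pos.2 ⟨b₀, mem_bs.2 ⟨h.len _ h.start, h.start⟩⟩

theorem wtW_sum {m K a t : ℕ} {q : List Bool → Bool} {b₀ : List Bool} (h : Hyp m K a t q b₀)
    (hmix : S_MIX) : ((wtW m K a t q b₀).map (fun p => p.2)).sum =
      (bs m q).card * 2 ^ (t * (2 * a + 1)) := by
  set L := t * (2 * a + 1) with hL
  have h1 : ((wtW m K a t q b₀).map (fun p => p.2)).sum =
      ∑ b ∈ bs m q, (2 ^ (K + L) - (bs m q).card * ((2 ^ K - 1) * cntW m a t q b₀ b)) := by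
    rw [wtW, List.map_map]
    exact list_sum_eq _
  rw [h1]
  have h2 : ∑ b ∈ bs m q, (2 ^ (K + L) - (bs m q).card * ((2 ^ K - 1) * cntW m a t q b₀ b)) +
      (bs m q).card * ((2 ^ K - 1) * 2 ^ L) = (bs m q).card * 2 ^ (K + L) := by
    rw [← sum_cntW h, mul_sum, mul_sum, ← sum_add_distrib]
    rw [sum_congr rfl (g := fun _ => 2 ^ (K + L))]
    · simp
    · intro b hb
      have h3 := hmix m K a t q b₀ h b hb
      rw [mul_assoc] at h3
      exact Nat.sub_add_cancel h3
  have h3 : (bs m q).card * 2 ^ (K + L) = (bs m q).card * 2 ^ L +
      (bs m q).card * ((2 ^ K - 1) * 2 ^ L) := by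
    have h4 : 2 ^ K = (2 ^ K - 1) + 1 := by
      have := Nat.one_le_two_pow (n := K)
      omega
    rw [pow_add]
    conv_lhs => rw [h4]
    ring
  omega

theorem wtW_keys (m K a t : ℕ) (q : List Bool → Bool) (b₀ : List Bool) :
    (wtW m K a t q b₀).map (fun p => p.1) = (allB (2 ^ m) m).filter q := by
  rw [wtW, List.map_map]
  simp [Function.comp_def]

theorem core_heads {m K a t : ℕ} {q : List Bool → Bool} {b₀ u v : List Bool}
    (hu : u.length = K) (hv : t * (2 * a + 1) ≤ v.length) (h : u.any (fun b => b) = true) :
    core m K a t q b₀ (u ++ v) = some (walk m a t q b₀ v) := by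
  subst hu
  unfold core
  rw [if_neg (by rw [List.length_append]; omega)]
  rw [if_pos (by simpa using h)]
  simp

theorem core_tails (hcnt : S_CNT) {m K a t : ℕ} {q : List Bool → Bool} {b₀ u v : List Bool}
    (hyp : Hyp m K a t q b₀) (hu : u.length = K) (hv : t * (2 * a + 1) ≤ v.length)
    (hv2 : 2 ^ m ≤ v.length) (h : u.any (fun b => b) = false) :
    core m K a t q b₀ (u ++ v) = cell v.length (bval v)
      ((bs m q).card * 2 ^ (t * (2 * a + 1))) (wtW m K a t q b₀) := by
  have h1 := hcnt (u ++ v).length m K a t q b₀ hyp (by rw [List.length_append]; omega)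
  have h2 : (u ++ v).length - K = v.length := by rw [List.length_append]; omega
  unfold core
  rw [if_neg (by rw [List.length_append]; omega)]
  rw [if_neg (by subst hu; simpa using h)]
  rw [if_neg (by rw [List.length_append]; omega)]
  rw [h1, h2]
  have h3 : (u ++ v).drop K = v := by subst hu; simp
  rw [h3, List.length_map, ← card_bs]
  congr 1
  rw [wts, wtW, List.map_map, List.length_map, ← card_bs]
  rfl

theorem core_short {m K a t : ℕ} {q : List Bool → Bool} {b₀ r : List Bool}
    (h : r.length < K + t * (2 * a + 1)) : core m K a t q b₀ r = none := by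
  unfold core
  rw [if_pos h]

theorem core_short2 {m K a t : ℕ} {q : List Bool → Bool} {b₀ u v : List Bool}
    (hu : u.length = K) (hv : v.length < 2 ^ m) (h : u.any (fun b => b) = false) :
    core m K a t q b₀ (u ++ v) = none := by
  unfold core
  split_ifs with h1 h2 h3
  · rfl
  · exfalso
    subst hu
    simp [h] at h2
  · rfl
  · exfalso
    rw [List.length_append] at h3
    omega

/-- exactly one string of length `K` has no heads -/
theorem nb_tails (K : ℕ) : nb K (fun u => !(u.any (fun b => b))) = 1 := by
  rw [nb_eq_card, card_eq_one]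
  refine ⟨List.replicate K false, ?_⟩
  ext u
  rw [mem_filter, mem_strs, mem_singleton, List.eq_replicate_iff]
  simp

theorem split_at {r : List Bool} {K : ℕ} (h : K ≤ r.length) :
    ∃ u v : List Bool, r = u ++ v ∧ u.length = K :=
  ⟨r.take K, r.drop K, (List.take_append_drop K r).symm, by rw [List.length_take]; omega⟩

theorem core_of (hcnt : S_CNT) (hmix : S_MIX) (hcell : S_CELL) : S_CORE := by
  intro m K a t q b₀ hyp
  set L := t * (2 * a + 1) with hL
  set Z := (bs m q).card * 2 ^ L with hZ
  set W := wtW m K a t q b₀ with hW
  have hcard := card_bs_pos hyp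
  have hm2 : 0 < 2 ^ m := Nat.two_pow_pos m
  have hct : ∀ u v : List Bool, u.length = K → L ≤ v.length → 2 ^ m ≤ v.length →
      u.any (fun b => b) = false → core m K a t q b₀ (u ++ v) = cell v.length (bval v) Z W :=
    fun u v hu hv hv2 h => core_tails hcnt hyp hu hv hv2 h
  have hsum : (W.map (fun p => p.2)).sum = Z := wtW_sum hyp hmix
  have hZ0 : Z ≠ 0 := by positivity
  have hkeys : W.map (fun p => p.1) = (allB (2 ^ m) m).filter q := wtW_keys m K a t q b₀
  obtain ⟨c1, c2, c3, c4⟩ := hcell W (by rw [hkeys]; exact (nodup_allB m).filter _)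
    (by rw [hsum]; exact hZ0)
  rw [hsum] at c1 c2 c3
  have hlen : W.length = (bs m q).card := by
    rw [hW, wtW, List.length_map, ← card_bs]
  refine ⟨?_, ?_, ?_, ?_, ?_⟩
  · -- monotonicity
    intro r r' b h
    by_cases h1 : r.length < K + L
    · rw [core_short h1] at h
      exact absurd h (by simp)
    obtain ⟨u, v, rfl, hu⟩ := split_at (r := r) (K := K) (by omega)
    rw [List.length_append] at h1
    cases h2 : u.any (fun b => b) with
    | true =>
      rw [core_heads hu (by omega) h2] at h
      rw [List.append_assoc, core_heads hu (by rw [List.length_append]; omega) h2,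
        walk_append _ _ _ _ _ _ (by omega)]
      exact h
    | false =>
      by_cases h3 : v.length < 2 ^ m
      · rw [core_short2 hu h3 h2] at h
        exact absurd h (by simp)
      · rw [hct u v hu (by omega) (by omega) h2] at h
        rw [List.append_assoc, hct u (v ++ r') hu
          (by rw [List.length_append]; omega) (by rw [List.length_append]; omega) h2, List.length_append]
        exact c1 v.length v r' b rfl h
  · -- exactness
    intro b hb
    have hbW : ∃ p ∈ W, p = (b, 2 ^ (K + L) - (bs m q).card * ((2 ^ K - 1) *
        cntW m a t q b₀ b)) := by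
      refine ⟨_, ?_, rfl⟩
      rw [hW, wtW, List.mem_map]
      refine ⟨b, ?_, rfl⟩
      rw [bs, List.mem_toFinset] at hb
      exact hb
    obtain ⟨p, hp, hpe⟩ := hbW
    have hp1 : p.1 = b := by rw [hpe]
    have hp2 : (p.2 : ℝ) = 2 ^ (K + L) - (bs m q).card * ((2 ^ K - 1) * cntW m a t q b₀ b) := by
      have h3 : (bs m q).card * ((2 ^ K - 1) * cntW m a t q b₀ b) ≤ 2 ^ (K + L) := by
        have h3 := hmix m K a t q b₀ hyp b hb
        rw [mul_assoc] at h3
        exact h3
      have h4 : p.2 = 2 ^ (K + L) - (bs m q).card * ((2 ^ K - 1) * cntW m a t q b₀ b) := by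
        rw [hpe]
      rw [h4, Nat.cast_sub h3]
      push_cast [Nat.one_le_two_pow]
      rfl
    have key : ∀ k', L + 2 ^ m ≤ k' →
        nb (K + k') (fun r => decide (core m K a t q b₀ r = some b)) =
        (2 ^ K - 1) * (cntW m a t q b₀ b * 2 ^ (k' - L)) +
          nb k' (fun r => decide (cell k' (bval r) Z W = some p.1)) := by
      intro k' hk'
      have e1 : nb (K + k') (fun r => decide (core m K a t q b₀ r = some b)) =
          nb (K + k') (fun r => (fun u : List Bool => u.any (fun b => b)) (r.take K) &&
            (fun v => decide (walk m a t q b₀ v = b)) (r.drop K)) +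
          nb (K + k') (fun r => (fun u : List Bool => !(u.any (fun b => b))) (r.take K) &&
            (fun v => decide (cell k' (bval v) Z W = some p.1)) (r.drop K)) := by
        rw [nb_eq_sum, nb_eq_sum, nb_eq_sum, ← sum_add_distrib]
        refine sum_congr rfl fun r hr => ?_
        rw [mem_strs] at hr
        obtain ⟨u, v, rfl, hu⟩ := split_at (r := r) (K := K) (by omega)
        rw [List.length_append] at hr
        have hv : v.length = k' := by omega
        have e2 : (u ++ v).take K = u := by subst hu; simp
        have e3 : (u ++ v).drop K = v := by subst hu; simp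
        simp only [e2, e3]
        cases h2 : u.any (fun b => b) with
        | true =>
          rw [core_heads hu (by omega) h2]
          simp
        | false =>
          rw [hct u v hu (by omega) (by omega) h2, hv, hp1]
          simp
      rw [e1]
      refine (congrArg₂ (· + ·)
        (nb_and K k' (fun u : List Bool => u.any (fun b => b))
          (fun v => decide (walk m a t q b₀ v = b)))
        (nb_and K k' (fun u : List Bool => !(u.any (fun b => b)))
          (fun v => decide (cell k' (bval v) Z W = some p.1)))).trans ?_
      rw [nb_tails, one_mul]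
      congr 1
      have e4 : nb K (fun u : List Bool => u.any (fun b => b)) = 2 ^ K - 1 := by
        have e5 : nb K (fun u : List Bool => u.any (fun b => b)) +
            nb K (fun u => !(u.any (fun b => b))) = 2 ^ K := by
          rw [← nb_true K, nb_eq_sum, nb_eq_sum, nb_eq_sum, ← sum_add_distrib]
          refine sum_congr rfl fun u _ => ?_
          cases u.any (fun b => b) <;> simp
        rw [nb_tails] at e5
        omega
      rw [e4]
      congr 1
      have e6 : k' = L + (k' - L) := by omega
      have e7 : nb k' (fun v => decide (walk m a t q b₀ v = b)) =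
          nb (L + (k' - L)) (fun v => (fun w => decide (walk m a t q b₀ w = b)) (v.take L)) := by
        rw [← e6]
        apply nb_congr
        intro r hr
        simp only
        rw [walk_take m a t q b₀ (le_refl _) (by omega)]
      rw [e7]
      exact nb_take L (k' - L) (fun w => decide (walk m a t q b₀ w = b))
    -- the limit
    set A : ℝ := (2 ^ K - 1) * cntW m a t q b₀ b / 2 ^ (K + L) with hA
    have hAw : A + p.2 / (Z * 2 ^ K) = 1 / (bs m q).card := by
      rw [hp2, hA, hZ]
      push_cast
      have hc : ((bs m q).card : ℝ) ≠ 0 := by positivity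
      rw [pow_add]
      field_simp
      ring
    have hlow : ∀ k, K + L + 2 ^ m ≤ k → 1 / ((bs m q).card : ℝ) - 2 / 2 ^ k ≤
        (nb k (fun r => decide (core m K a t q b₀ r = some b)) : ℝ) / 2 ^ k ∧
        (nb k (fun r => decide (core m K a t q b₀ r = some b)) : ℝ) / 2 ^ k ≤
          1 / ((bs m q).card : ℝ) := by
      intro k hk
      obtain ⟨k', rfl⟩ : ∃ k', k = K + k' := ⟨k - K, by omega⟩
      rw [key k' (by omega)]
      obtain ⟨l1, l2⟩ := c2 p hp k'
      have hZr : (0 : ℝ) < Z := by exact_mod_cast Nat.pos_of_ne_zero hZ0
      have e8 : (((2 ^ K - 1 : ℕ) : ℝ)) = 2 ^ K - 1 := by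
        push_cast [Nat.one_le_two_pow]
        rfl
      have e9 : ((2 : ℝ) ^ K - 1) * (cntW m a t q b₀ b * 2 ^ (k' - L)) / 2 ^ (K + k') = A := by
        rw [hA]
        have : (2 : ℝ) ^ (K + k') = 2 ^ (K + L) * 2 ^ (k' - L) := by
          rw [← pow_add]
          congr 1
          omega
        rw [this]
        field_simp
      push_cast
      rw [e8, add_div, e9, ← hAw]
      have e10 : (2 : ℝ) ^ (K + k') = 2 ^ K * 2 ^ k' := pow_add _ _ _
      constructor
      · have : (p.2 : ℝ) / (Z * 2 ^ K) - 2 / 2 ^ (K + k') ≤
            ((p.2 * 2 ^ k' : ℝ) / Z - 2) / 2 ^ (K + k') := by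
          apply le_of_eq
          rw [e10]
          field_simp
        have h3 : ((p.2 * 2 ^ k' : ℝ) / Z - 2) / 2 ^ (K + k') ≤
            (nb k' (fun r => decide (cell k' (bval r) Z W = some p.1)) : ℝ) / 2 ^ (K + k') :=
          div_le_div_of_nonneg_right l1 (by positivity)
        linarith
      · have h3 : (nb k' (fun r => decide (cell k' (bval r) Z W = some p.1)) : ℝ) /
            2 ^ (K + k') ≤ ((p.2 * 2 ^ k' : ℝ) / Z) / 2 ^ (K + k') :=
          div_le_div_of_nonneg_right l2 (by positivity)
        have : ((p.2 * 2 ^ k' : ℝ) / Z) / 2 ^ (K + k') = (p.2 : ℝ) / (Z * 2 ^ K) := by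
          rw [e10]
          field_simp
        linarith
    have hlim : Tendsto (fun k : ℕ => 1 / ((bs m q).card : ℝ) - 2 / 2 ^ k) atTop
        (𝓝 (1 / (bs m q).card)) := by
      have h1 : Tendsto (fun k : ℕ => (2 : ℝ) / 2 ^ k) atTop (𝓝 0) := by
        have h2 := (tendsto_pow_atTop_nhds_zero_of_lt_one (r := (1 / 2 : ℝ)) (by norm_num)
          (by norm_num)).const_mul 2
        rw [mul_zero] at h2
        refine h2.congr fun k => ?_
        rw [div_pow, one_pow]
        ring
      simpa using (tendsto_const_nhds (x := 1 / ((bs m q).card : ℝ))).sub h1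
    refine tendsto_of_tendsto_of_tendsto_of_le_of_le' hlim tendsto_const_nhds ?_ ?_
    · filter_upwards [eventually_ge_atTop (K + L + 2 ^ m)] with k hk
      exact (hlow k hk).1
    · filter_upwards [eventually_ge_atTop (K + L + 2 ^ m)] with k hk
      exact (hlow k hk).2
  · -- values
    intro r b h
    by_cases h1 : r.length < K + L
    · rw [core_short h1] at h
      exact absurd h (by simp)
    obtain ⟨u, v, rfl, hu⟩ := split_at (r := r) (K := K) (by omega)
    rw [List.length_append] at h1
    cases h2 : u.any (fun b => b) with
    | true =>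
      rw [core_heads hu (by omega) h2, Option.some_inj] at h
      rw [← h]
      exact walk_mem hyp t v
    | false =>
      by_cases h3 : v.length < 2 ^ m
      · rw [core_short2 hu h3 h2] at h
        exact absurd h (by simp)
      · rw [hct u v hu (by omega) (by omega) h2] at h
        have h4 := c4 _ _ _ _ h
        rw [hkeys] at h4
        rw [bs, List.mem_toFinset]
        exact h4
  · -- halting, first bound
    intro k hk
    obtain ⟨k', rfl⟩ : ∃ k', k = K + k' := ⟨k - K, by omega⟩
    rw [Nat.add_sub_cancel_left]
    calc nb (K + k') (fun r => decide (core m K a t q b₀ r = none))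
        ≤ nb (K + k') (fun r => (fun u : List Bool => !(u.any (fun b => b))) (r.take K)) := by
          apply nb_mono
          intro r hr h
          obtain ⟨u, v, rfl, hu⟩ := split_at (r := r) (K := K) (by omega)
          rw [List.length_append] at hr
          have e2 : (u ++ v).take K = u := by subst hu; simp
          simp only [e2]
          cases h2 : u.any (fun b => b) with
          | false => rfl
          | true =>
            rw [core_heads hu (by omega) h2] at h
            simp at h
      _ = 2 ^ k' := by
          refine (nb_take K k' (fun u : List Bool => !(u.any (fun b => b)))).trans ?_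
          rw [nb_tails, one_mul]
  · -- halting, second bound
    intro k hk
    obtain ⟨k', rfl⟩ : ∃ k', k = K + k' := ⟨k - K, by omega⟩
    calc nb (K + k') (fun r => decide (core m K a t q b₀ r = none))
        ≤ nb (K + k') (fun r => (fun u : List Bool => !(u.any (fun b => b))) (r.take K) &&
            (fun v => decide (cell k' (bval v) Z W = none)) (r.drop K)) := by
          apply nb_mono
          intro r hr h
          obtain ⟨u, v, rfl, hu⟩ := split_at (r := r) (K := K) (by omega)
          rw [List.length_append] at hr
          have hv : v.length = k' := by omega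
          have e2 : (u ++ v).take K = u := by subst hu; simp
          have e3 : (u ++ v).drop K = v := by subst hu; simp
          simp only [e2, e3]
          cases h2 : u.any (fun b => b) with
          | false =>
            rw [hct u v hu (by omega) (by omega) h2, hv] at h
            simpa using h
          | true =>
            rw [core_heads hu (by omega) h2] at h
            simp at h
      _ = nb k' (fun v => decide (cell k' (bval v) Z W = none)) := by
          refine (nb_and K k' (fun u : List Bool => !(u.any (fun b => b)))
            (fun v => decide (cell k' (bval v) Z W = none))).trans ?_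
          rw [nb_tails, one_mul]
      _ ≤ 2 * W.length := c3 k'
      _ ≤ 2 ^ (m + 1) := by
          rw [hlen, pow_succ]
          have := card_bs_le m q
          omega

end Pool.Agent.W999.ES
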