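import Pool.Agent.W999.ES.Meas3
import Pool.Agent.W999.ES.Core

/-! Project ES: the final assembly (conditional on the parts). -/

set_option autoImplicit false

namespace Pool.Agent.W999.ES

open Finset Filter Topology MeasureTheory Turing
open Pool.Agent.NPC
open scoped ENNReal

/-- a function computed by a program is computed by a Turing machine -/
theorem toTM {α β : Type} {ea : α → List Bool} {eb : β → List Bool} {f : α → β}
    (h : PC ea eb f) : Nonempty (TM2ComputableInPolyTime ea eb f) := by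
  obtain ⟨c, p, h⟩ := h
  have key : ∀ x : α, ∃ t, t ≤ p.eval (ea x).length + 1 ∧
      Nonempty (TM2OutputsInTime (c.map (Fin.ofNat (c.bd + 1))).toTM (ea x) (some (eb (f x))) t) := by
    intro x
    obtain ⟨t, ht, hr⟩ := h x
    have h1 := hr.restrict (n := c.bd) (by omega)
    refine ⟨t + 1, by simpa using ht, toTM_outputs ?_⟩
    convert! h1 using 1
    · funext i
      by_cases hi : i = 0
      · subst hi; simp [inp]
      · have : (i : ℕ) ≠ 0 := fun h => hi (Fin.ext h)
        simp [inp, hi, this]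
    · funext i
      by_cases hi : i = 0
      · subst hi; simp [inp]
      · have : (i : ℕ) ≠ 0 := fun h => hi (Fin.ext h)
        simp [inp, hi, this]
  refine ⟨{ tm := (c.map (Fin.ofNat (c.bd + 1))).toTM
            inputAlphabet := Equiv.refl Bool
            outputAlphabet := Equiv.refl Bool
            time := p + 1
            outputsFun := ?_ }⟩
  intro x
  have hx := key x
  have ht := hx.choose_spec.1
  have hm := hx.choose_spec.2.some
  refine outputs_conv (List.map_id (ea x)).symm (List.map_id (eb (f x))).symm (ht.trans ?_) hm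
  simp

theorem sz_nat_le (v : ℕ) : sz v ≤ 4 * v + 1 := by
  have h1 : sz v = sz v.bits := rfl
  have h2 := sz_le_length_mul v.bits 3 (fun b _ => sz_bool_le b)
  have h3 : v.bits.length ≤ v := by
    rw [Nat.size_eq_bits_len, Nat.size_le]
    exact Nat.lt_two_pow_self
  omega

theorem IsComplex.length_le {Δ : List (List ℕ)} (h : IsComplex Δ) {σ : List ℕ} (hσ : σ ∈ Δ) :
    σ.length ≤ Δ.length := by
  have h1 : σ.Nodup := (h.sorted σ hσ).imp (fun h => Nat.ne_of_lt h)
  have h2 : σ.toFinset ⊆ Finset.range Δ.length := by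
    intro v hv
    rw [List.mem_toFinset] at hv
    rw [Finset.mem_range]
    exact h.small σ hσ v hv
  have h3 := card_le_card h2
  rwa [List.toFinset_card_of_nodup h1, card_range] at h3

theorem IsComplex.sz_le {Δ : List (List ℕ)} (h : IsComplex Δ) :
    sz Δ ≤ Δ.length * (Δ.length * (4 * Δ.length + 1 + 1) + 1 + 1) + 1 := by
  refine sz_le_length_mul Δ _ fun σ hσ => ?_
  have h1 := sz_le_length_mul σ (4 * Δ.length + 1) (fun v hv => by
    have h2 := h.small σ hσ v hv
    have h3 := sz_nat_le v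
    omega)
  have h2 := h.length_le hσ
  refine h1.trans ?_
  gcongr

theorem two_pow_size_le (m : ℕ) : 2 ^ Nat.size m ≤ 2 * m + 1 := by
  rcases Nat.eq_zero_or_pos m with rfl | hm
  · simp
  · obtain ⟨s, hs⟩ : ∃ s, Nat.size m = s + 1 :=
      Nat.exists_eq_succ_of_ne_zero (Nat.pos_iff_ne_zero.1 (Nat.size_pos.2 hm))
    have h1 : s < Nat.size m := by omega
    rw [Nat.lt_size] at h1
    rw [hs, pow_succ]
    omega

theorem tops_le (Δ : List (List ℕ)) : (tops Δ).length ≤ Δ.length := List.length_filter_le _ _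

/-- the number of coins which are usually enough -/
def AA (Δ : List (List ℕ)) : ℕ := KK Δ + tt Δ * (2 * aa Δ + 1)

theorem AA_le (Δ : List (List ℕ)) : AA Δ ≤ (Δ.length + 1) ^ 2 +
    4 * (2 * Δ.length + 1) ^ 2 * ((Δ.length + 1) ^ 2 + Δ.length) * (2 * Δ.length + 1) := by
  unfold AA tt KK
  have h1 := tops_le Δ
  have h2 : aa Δ ≤ Δ.length := by
    unfold aa
    refine le_trans ?_ h1
    rw [Nat.size_le]
    exact Nat.lt_two_pow_self
  have h3 : 4 ^ aa Δ ≤ (2 * Δ.length + 1) ^ 2 := by
    have h4 : 4 ^ aa Δ = (2 ^ aa Δ) ^ 2 := by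
      rw [← pow_mul, mul_comm, pow_mul]
      norm_num
    rw [h4]
    refine Nat.pow_le_pow_left ?_ 2
    have h5 := two_pow_size_le (tops Δ).length
    unfold aa
    omega
  gcongr

theorem hyp_of (hqb : S_QB) {Δ : List (List ℕ)} (hΔ : IsComplex Δ) :
    Hyp (tops Δ).length (KK Δ) (aa Δ) (tt Δ) (qB Δ) (greedy Δ) where
  len := (hqb Δ hΔ).2.1
  start := (hqb Δ hΔ).1
  poincare := (hqb Δ hΔ).2.2.1
  ha := (Nat.lt_size_self _).le
  ht := rfl

/-- The properties of the sampler. -/
theorem final_of (hcore : S_CORE) (hqb : S_QB) (hpoly : S_POLY) (hpq : S_PQ) :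
    Nonempty (TM2ComputableInPolyTime (bits : List (List ℕ) × List Bool → List Bool)
      (bits : Option (List (List ℕ)) → List Bool) (fun p => samp p.1 p.2)) ∧
    (∀ Δ, IsComplex Δ → (trees Δ).Nonempty ∧
      ∀ Y ∈ trees Δ, coins {ω | Outputs samp Δ ω Y} = 1 / (trees Δ).card) ∧
    (∀ q : Polynomial ℕ, ∃ p : Polynomial ℕ, ∀ Δ, IsComplex Δ →
      ∫⁻ ω, cost samp (fun n => q.eval n) Δ ω ∂coins ≤ (p.eval Δ.length : ℕ)) := by
  refine ⟨?_, ?_, ?_⟩
  · obtain ⟨h1, h2, h3, h4, h5, h6, h7, h8⟩ := hpq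
    have h9 := hpoly (List (List ℕ)) (fun Δ => (tops Δ).length) KK aa tt qB greedy h1 h2 h3 h4 h5
      h6 h7
    apply toTM
    change Poly (fun p : List (List ℕ) × List Bool => samp p.1 p.2)
    refine (Poly.optCases (g := fun _ => (none : Option (List (List ℕ))))
      (h := fun (p : List (List ℕ) × List Bool) b => some (outB p.1 b)) h9 (NPC.Poly.const _)
      (Poly.some (h8.comp (Poly.pair (Poly.fst (Poly.fst Poly.id)) (Poly.snd Poly.id))))).congr ?_
    intro p
    unfold samp
    cases core (tops p.1).length (KK p.1) (aa p.1) (tt p.1) (qB p.1) (greedy p.1) p.2 <;> rfl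
  · intro Δ hΔ
    have hyp := hyp_of hqb hΔ
    obtain ⟨hq1, hq2, hq3, hq4, hq5, hq6⟩ := hqb Δ hΔ
    obtain ⟨hc1, hc2, hc3, hc4, hc5⟩ := hcore _ _ _ _ _ _ hyp
    have hcard : (bs (tops Δ).length (qB Δ)).card = (trees Δ).card := by
      refine card_bij (fun b _ => outB Δ b) hq4 (fun b hb b' hb' h => hq5 b hb b' hb' h) ?_
      intro Y hY
      obtain ⟨b, hb, h⟩ := hq6 Y hY
      exact ⟨b, hb, h⟩
    refine ⟨⟨outB Δ (greedy Δ), hq4 _ (mem_bs.2 ⟨hq2 _ hq1, hq1⟩)⟩, ?_⟩
    intro Y hY
    obtain ⟨b, hb, rfl⟩ := hq6 Y hY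
    have hiff : ∀ r, (samp Δ r = some (outB Δ b) ↔
        core (tops Δ).length (KK Δ) (aa Δ) (tt Δ) (qB Δ) (greedy Δ) r = some b) := by
      intro r
      unfold samp
      rw [Option.map_eq_some_iff]
      constructor
      · rintro ⟨b', hb', h⟩
        rw [hb', hq5 b' (hc3 _ _ hb') b hb h]
      · intro h
        exact ⟨b, h, rfl⟩
    have hmono : ∀ (r r' : List Bool) (y : List (List ℕ)), samp Δ r = some y →
        samp Δ (r ++ r') = some y := by
      intro r r' y h
      unfold samp at h ⊢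
      rw [Option.map_eq_some_iff] at h ⊢
      obtain ⟨b', hb', h⟩ := h
      exact ⟨b', hc1 _ _ _ hb', h⟩
    have hlim := hc2 b hb
    rw [coins_outputs samp Δ (outB Δ b) hmono (c := 1 / (bs (tops Δ).length (qB Δ)).card)]
    · rw [hcard, ENNReal.ofReal_div_of_pos]
      · simp
      · rw [← hcard]
        exact_mod_cast card_bs_pos hyp
    · refine hlim.congr fun k => ?_
      congr 2
      refine nb_congr fun r _ => ?_
      rw [decide_eq_decide, hiff r]
  · intro q
    obtain ⟨P, hP⟩ := tsum_bound q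
    refine ⟨(q.comp (Polynomial.X * (Polynomial.X * (4 * Polynomial.X + 1 + 1) + 1 + 1) + 1 + 2)) +
      (P.comp (Polynomial.X * (Polynomial.X * (4 * Polynomial.X + 1 + 1) + 1 + 1) + 1 + 6 +
        ((Polynomial.X + 1) ^ 2 + 4 * (2 * Polynomial.X + 1) ^ 2 * ((Polynomial.X + 1) ^ 2 +
          Polynomial.X) * (2 * Polynomial.X + 1)))), ?_⟩
    intro Δ hΔ
    have hyp := hyp_of hqb hΔ
    obtain ⟨hc1, hc2, hc3, hc4, hc5⟩ := hcore _ _ _ _ _ _ hyp
    refine (lintegral_cost_le samp q Δ).trans ?_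
    have h1 := hP (sz Δ + 6) (tops Δ).length Δ.length (AA Δ) (KK Δ)
      (fun k => nb k (fun r => (samp Δ r).isNone)) (tops_le Δ) rfl (Nat.le_add_right _ _)
      (fun k => nb_le _ _) ?_ ?_
    · refine (add_le_add_right h1 _).trans ?_
      norm_cast
      simp only [Polynomial.eval_add, Polynomial.eval_comp, Polynomial.eval_mul,
        Polynomial.eval_pow, Polynomial.eval_X, Polynomial.eval_one, Polynomial.eval_ofNat]
      refine add_le_add (eval_mono q ?_) (eval_mono P ?_)
      · have := hΔ.sz_le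
        omega
      · have := hΔ.sz_le
        have := AA_le Δ
        omega
    · intro k hk
      refine le_trans (le_of_eq ?_) (hc4 k hk)
      refine nb_congr fun r _ => ?_
      unfold samp
      rw [Option.isNone_map]
      cases core (tops Δ).length (KK Δ) (aa Δ) (tt Δ) (qB Δ) (greedy Δ) r <;> simp
    · intro k hk
      refine le_trans (le_of_eq ?_) (hc5 k hk)
      refine nb_congr fun r _ => ?_
      unfold samp
      rw [Option.isNone_map]
      cases core (tops Δ).length (KK Δ) (aa Δ) (tt Δ) (qB Δ) (greedy Δ) r <;> simp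

end Pool.Agent.W999.ES
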