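import Pool.Agent.W999.ES.Basic

/-! Project ES: linear matroids, general facts. -/

set_option autoImplicit false

namespace Pool.Agent.W999.ES

open Submodule Module

section
variable {ι V : Type*} [AddCommGroup V] [Module ℚ V] {v : ι → V}

theorem fr {s : Finset ι} (h : LinearIndepOn ℚ v (s : Set ι)) :
    finrank ℚ (span ℚ (v '' (s : Set ι))) = s.card := by
  have h1 := finrank_span_eq_card h
  have h2 : Set.range (fun x : (s : Set ι) => v x) = v '' (s : Set ι) := by
    ext y
    simp
  rw [h2] at h1
  simpa using h1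

theorem fd (s : Finset ι) : FiniteDimensional ℚ (span ℚ (v '' (s : Set ι))) :=
  FiniteDimensional.span_of_finite ℚ (s.finite_toSet.image v)

/-- augmentation -/
theorem aug {s t : Finset ι} (hs : LinearIndepOn ℚ v (s : Set ι))
    (ht : LinearIndepOn ℚ v (t : Set ι)) (h : s.card < t.card) :
    ∃ y ∈ t, y ∉ s ∧ LinearIndepOn ℚ v (insert y (s : Set ι)) := by
  by_contra hcon
  push Not at hcon
  have h1 : span ℚ (v '' (t : Set ι)) ≤ span ℚ (v '' (s : Set ι)) := by
    rw [span_le]
    rintro _ ⟨y, hy, rfl⟩
    rw [SetLike.mem_coe]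
    by_contra hn
    have hys : y ∉ s := by
      intro hys
      exact hn (subset_span ⟨y, hys, rfl⟩)
    exact hcon y hy hys (hs.insert hn)
  have := fd (v := v) s
  have h2 := Submodule.finrank_mono h1
  rw [fr hs, fr ht] at h2
  omega

/-- independent sets of full cardinality span -/
theorem span_of_card {s t : Finset ι} (hs : LinearIndepOn ℚ v (s : Set ι)) (hst : s ⊆ t)
    (h : finrank ℚ (span ℚ (v '' (t : Set ι))) = s.card) :
    span ℚ (v '' (s : Set ι)) = span ℚ (v '' (t : Set ι)) := by
  have := fd (v := v) t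
  apply eq_of_le_of_finrank_eq (span_mono (Set.image_mono (by exact_mod_cast hst)))
  rw [fr hs, h]

end

end Pool.Agent.W999.ES
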