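import Pool.Agent.W999.ES.Model
import Pool.Agent.W999.ES.Basic

set_option autoImplicit false

namespace Pool.Agent.W999.ES

open Finset Filter Topology MeasureTheory
open Pool.Agent.NPC
open scoped ENNReal

theorem length_first (ω : ℕ → Bool) (k : ℕ) : (first ω k).length = k := by simp [first]

theorem first_succ (ω : ℕ → Bool) (k : ℕ) : first ω (k + 1) = first ω k ++ [ω k] := by
  simp [first, List.range_succ]

theorem first_add (ω : ℕ → Bool) (k l : ℕ) : ∃ r, first ω (k + l) = first ω k ++ r := by
  induction l with
  | zero => exact ⟨[], by simp⟩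
  | succ l ih =>
    obtain ⟨r, hr⟩ := ih
    refine ⟨r ++ [ω (k + l)], ?_⟩
    rw [← add_assoc, first_succ, hr, List.append_assoc]

theorem first_eq_iff (ω : ℕ → Bool) {k : ℕ} {r : List Bool} (hr : r.length = k) :
    first ω k = r ↔ ∀ i ∈ Finset.range k, ω i ∈ ({r.getD i false} : Set Bool) := by
  constructor
  · intro h i hi
    rw [Finset.mem_range] at hi
    subst h
    simp [first, hi]
  · intro h
    apply List.ext_getElem
    · rw [length_first, hr]
    · intro i h1 h2
      have hi : i < k := by omega
      have := h i (Finset.mem_range.2 hi)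
      rw [Set.mem_singleton_iff, List.getD_eq_getElem _ _ h2] at this
      simp [first, this]

theorem set_first_eq {k : ℕ} {r : List Bool} (hr : r.length = k) :
    {ω : ℕ → Bool | first ω k = r} =
      Set.pi (Finset.range k : Set ℕ) (fun i => ({r.getD i false} : Set Bool)) := by
  ext ω
  rw [Set.mem_ofPred_eq, first_eq_iff ω hr]
  simp [Set.mem_pi]

theorem coins_first {k : ℕ} {r : List Bool} (hr : r.length = k) :
    coins {ω | first ω k = r} = (2 ^ k : ℝ≥0∞)⁻¹ := by
  rw [set_first_eq hr, coins, Measure.infinitePi_pi _ (fun i _ => measurableSet_singleton _)]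
  have : ∀ i ∈ Finset.range k,
      (PMF.uniformOfFintype Bool).toMeasure ({r.getD i false} : Set Bool) = 2⁻¹ := by
    intro i _
    rw [PMF.toMeasure_apply_singleton _ _ (measurableSet_singleton _)]
    simp
  rw [Finset.prod_congr rfl this]
  simp [ENNReal.inv_pow]

theorem measurable_first {k : ℕ} {r : List Bool} : MeasurableSet {ω : ℕ → Bool | first ω k = r} := by
  by_cases hr : r.length = k
  · rw [set_first_eq hr]
    exact MeasurableSet.pi (Finset.countable_toSet _) (fun i _ => measurableSet_singleton _)
  · convert MeasurableSet.empty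
    ext ω
    simp only [Set.mem_ofPred_eq, Set.mem_empty_iff_false, iff_false]
    intro h
    exact hr (by rw [← h, length_first])

theorem set_cyl (k : ℕ) (A : List Bool → Bool) : {ω : ℕ → Bool | A (first ω k) = true} =
    ⋃ r ∈ (strs k).filter (fun r => A r = true), {ω | first ω k = r} := by
  ext ω
  simp only [Set.mem_ofPred_eq, Set.mem_iUnion, exists_prop, Finset.mem_filter, mem_strs]
  constructor
  · intro h
    exact ⟨first ω k, ⟨length_first ω k, h⟩, rfl⟩
  · rintro ⟨r, ⟨_, h⟩, rfl⟩
    exact h

theorem measurable_cyl (k : ℕ) (A : List Bool → Bool) :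
    MeasurableSet {ω : ℕ → Bool | A (first ω k) = true} := by
  rw [set_cyl]
  exact Finset.measurableSet_biUnion _ (fun r _ => measurable_first)

theorem coins_cyl (k : ℕ) (A : List Bool → Bool) :
    coins {ω | A (first ω k) = true} = (nb k A : ℝ≥0∞) / 2 ^ k := by
  rw [set_cyl, measure_biUnion_finset]
  · rw [Finset.sum_congr rfl (g := fun _ => (2 ^ k : ℝ≥0∞)⁻¹), nb_eq_card]
    · simp [div_eq_mul_inv]
    · intro r hr
      rw [Finset.mem_filter, mem_strs] at hr
      exact coins_first hr.1
  · intro r _ r' _ h
    simp only [Function.onFun]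
    rw [Set.disjoint_left]
    intro ω h1 h2
    simp only [Set.mem_ofPred_eq] at h1 h2
    exact h (by rw [← h1, h2])
  · intro r _
    exact measurable_first

end Pool.Agent.W999.ES
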