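import Pool.Agent.W999.ES.Meas

set_option autoImplicit false

namespace Pool.Agent.W999.ES

open Finset Filter Topology MeasureTheory
open Pool.Agent.NPC
open scoped ENNReal

theorem first_take (ω : ℕ → Bool) {j k : ℕ} (h : j ≤ k) : (first ω k).take j = first ω j := by
  obtain ⟨l, rfl⟩ := Nat.exists_eq_add_of_le h
  obtain ⟨r, hr⟩ := first_add ω j l
  rw [hr, List.take_append_of_le_length (by rw [length_first]), List.take_of_length_le
    (by rw [length_first])]

theorem outputs_iff {α β : Type} (F : α → List Bool → Option β) (x : α) (y : β)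
    (hF : ∀ (r r' : List Bool) (y : β), F x r = some y → F x (r ++ r') = some y) (ω : ℕ → Bool) :
    Outputs F x ω y ↔ ∃ k, F x (first ω k) = some y := by
  constructor
  · rintro ⟨k, _, h⟩
    exact ⟨k, h⟩
  · rintro ⟨k, h⟩
    classical
    have hex : ∃ k, F x (first ω k) ≠ none := ⟨k, by rw [h]; simp⟩
    refine ⟨Nat.find hex, ?_, ?_⟩
    · intro j hj
      have := Nat.find_min hex hj
      simpa using this
    · have h1 := Nat.find_spec hex
      obtain ⟨y', hy'⟩ := Option.ne_none_iff_exists'.1 h1
      have h2 : Nat.find hex ≤ k := Nat.find_min' hex (by rw [h]; simp)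
      obtain ⟨l, hl⟩ := Nat.exists_eq_add_of_le h2
      obtain ⟨r, hr⟩ := first_add ω (Nat.find hex) l
      rw [← hl] at hr
      have h3 := hF _ r _ hy'
      rw [← hr, h] at h3
      rw [hy', h3]

theorem coins_outputs {α β : Type} [DecidableEq β] (F : α → List Bool → Option β) (x : α) (y : β)
    (hF : ∀ (r r' : List Bool) (y : β), F x r = some y → F x (r ++ r') = some y) {c : ℝ}
    (hc : Tendsto (fun k : ℕ => (nb k (fun r => decide (F x r = some y)) : ℝ) / 2 ^ k) atTop
      (𝓝 c)) :
    coins {ω | Outputs F x ω y} = ENNReal.ofReal c := by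
  have h1 : {ω | Outputs F x ω y} =
      ⋃ k : ℕ, {ω : ℕ → Bool | (fun r => decide (F x r = some y)) (first ω k) = true} := by
    ext ω
    simp only [Set.mem_ofPred_eq, Set.mem_iUnion, decide_eq_true_eq]
    exact outputs_iff F x y hF ω
  have h2 : Monotone (fun k : ℕ =>
      {ω : ℕ → Bool | (fun r => decide (F x r = some y)) (first ω k) = true}) := by
    intro k l hkl ω h
    simp only [Set.mem_ofPred_eq, decide_eq_true_eq] at h ⊢
    obtain ⟨j, rfl⟩ := Nat.exists_eq_add_of_le hkl
    obtain ⟨r, hr⟩ := first_add ω k j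
    rw [hr]
    exact hF _ _ _ h
  have h3 := tendsto_measure_iUnion_atTop (μ := coins) h2
  rw [← h1] at h3
  have h4 := ENNReal.tendsto_ofReal hc
  refine tendsto_nhds_unique h3 (h4.congr fun k => ?_)
  have h5 := coins_cyl k (fun r => decide (F x r = some y))
  simp only [Function.comp]
  rw [h5, ENNReal.ofReal_div_of_pos (by positivity), ENNReal.ofReal_natCast,
    ENNReal.ofReal_pow (by norm_num)]
  simp

theorem sz_first_le (ω : ℕ → Bool) (k : ℕ) : sz (first ω k) ≤ 4 * k + 1 := by
  have := sz_le_length_mul (first ω k) 3 (fun b _ => sz_bool_le b)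
  rw [length_first] at this
  omega

theorem lintegral_cost_le {α β : Type} [TEnc α] (F : α → List Bool → Option β) (q : Polynomial ℕ)
    (x : α) :
    ∫⁻ ω, cost F (fun n => q.eval n) x ω ∂coins ≤ (q.eval (sz x + 2) : ℕ) +
      ∑' k : ℕ, ((q.eval (sz x + 6 + 4 * k) : ℕ) : ℝ≥0∞) *
        ((nb k (fun r => (F x r).isNone) : ℝ≥0∞) / 2 ^ k) := by
  classical
  have hset : ∀ k : ℕ, {ω : ℕ → Bool | Running F x ω k} =
      {ω | (fun r : List Bool => decide (∀ j < k, F x (r.take j) = none)) (first ω k) = true} := by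
    intro k
    ext ω
    simp only [Set.mem_ofPred_eq, decide_eq_true_eq, Running]
    refine forall_congr' fun j => forall_congr' fun hj => ?_
    rw [first_take ω hj.le]
  have hmeas : ∀ k : ℕ, MeasurableSet {ω : ℕ → Bool | Running F x ω k} := by
    intro k
    rw [hset]
    exact measurable_cyl k (fun r => decide (∀ j < k, F x (r.take j) = none))
  have hpt : ∀ ω : ℕ → Bool, cost F (fun n => q.eval n) x ω ≤
      ∑' k : ℕ, Set.indicator {ω : ℕ → Bool | Running F x ω k}
        (fun _ => ((q.eval (sz x + 2 + 4 * k) : ℕ) : ℝ≥0∞)) ω := by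
    intro ω
    unfold cost
    refine ENNReal.tsum_le_tsum fun k => ?_
    by_cases h : Running F x ω k
    · rw [if_pos h, Set.indicator_of_mem (by exact h)]
      norm_cast
      apply eval_mono
      rw [bits_length, sz_pair]
      have := sz_first_le ω k
      omega
    · rw [if_neg h]
      exact bot_le
  refine (lintegral_mono hpt).trans ?_
  rw [lintegral_tsum]
  · have h1 : ∀ k : ℕ, ∫⁻ ω, Set.indicator {ω : ℕ → Bool | Running F x ω k}
        (fun _ => ((q.eval (sz x + 2 + 4 * k) : ℕ) : ℝ≥0∞)) ω ∂coins =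
        ((q.eval (sz x + 2 + 4 * k) : ℕ) : ℝ≥0∞) * coins {ω : ℕ → Bool | Running F x ω k} := by
      intro k
      rw [lintegral_indicator (hmeas k), lintegral_const, Measure.restrict_apply_univ]
    simp only [h1]
    rw [tsum_eq_zero_add' ENNReal.summable]
    refine add_le_add ?_ ?_
    · have h2 : coins {ω : ℕ → Bool | Running F x ω 0} ≤ 1 := by
        have h3 : {ω : ℕ → Bool | Running F x ω 0} ⊆ {ω | (fun _ : List Bool => true)
            (first ω 0) = true} := fun ω _ => rfl
        refine (measure_mono h3).trans ?_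
        rw [coins_cyl 0 (fun _ => true), nb_true]
        simp
      calc _ ≤ ((q.eval (sz x + 2 + 4 * 0) : ℕ) : ℝ≥0∞) * 1 := by gcongr
        _ = _ := by simp
    · refine ENNReal.tsum_le_tsum fun k => ?_
      have h3 : {ω : ℕ → Bool | Running F x ω (k + 1)} ⊆ {ω | (fun r : List Bool =>
          (F x r).isNone) (first ω k) = true} := by
        intro ω h
        simp only [Set.mem_ofPred_eq] at h ⊢
        rw [Option.isNone_iff_eq_none]
        exact h k (by omega)
      have h4 := measure_mono (μ := coins) h3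
      rw [coins_cyl k (fun r => (F x r).isNone)] at h4
      have h5 : sz x + 2 + 4 * (k + 1) = sz x + 6 + 4 * k := by ring
      rw [h5]
      gcongr
  · intro k
    exact (measurable_const.indicator (hmeas k)).aemeasurable

end Pool.Agent.W999.ES
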