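import Pool.Agent.W999.ES.Meas2

set_option autoImplicit false

namespace Pool.Agent.W999.ES

open Finset Filter Topology MeasureTheory
open Pool.Agent.NPC
open scoped ENNReal

theorem eval_le_pow (q : Polynomial ℕ) : ∃ C D : ℕ, ∀ n, q.eval n ≤ C * (n + 1) ^ D := by
  refine ⟨∑ i ∈ Finset.range (q.natDegree + 1), q.coeff i, q.natDegree, fun n => ?_⟩
  rw [Polynomial.eval_eq_sum_range, Finset.sum_mul]
  refine Finset.sum_le_sum fun i hi => ?_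
  rw [Finset.mem_range] at hi
  refine Nat.mul_le_mul_left _ ?_
  calc n ^ i ≤ (n + 1) ^ i := Nat.pow_le_pow_left (by omega) i
    _ ≤ (n + 1) ^ q.natDegree := Nat.pow_le_pow_right (by omega) (by omega)

theorem pow_le_two_pow (E : ℕ) : ∃ M : ℕ, ∀ j : ℕ, (j + 1) ^ E ≤ M * 2 ^ j := by
  refine ⟨E.factorial * 2 ^ E, fun j => ?_⟩
  calc (j + 1) ^ E ≤ (j + 1).ascFactorial E := Nat.pow_succ_le_ascFactorial _ _
    _ = E.factorial * (j + E).choose E := Nat.ascFactorial_eq_factorial_mul_choose _ _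
    _ ≤ E.factorial * 2 ^ (j + E) := Nat.mul_le_mul_left _ (Nat.choose_le_two_pow _ _)
    _ = _ := by rw [pow_add]; ring

/-- the pointwise bound -/
theorem key_bound (E : ℕ) : ∃ M : ℕ, ∀ (m n A K : ℕ) (N : ℕ → ℕ), m ≤ n → K = (n + 1) ^ 2 →
    K ≤ A → (∀ k, N k ≤ 2 ^ k) → (∀ k, A ≤ k → N k ≤ 2 ^ (k - K)) →
    (∀ k, A + 2 ^ m ≤ k → N k ≤ 2 ^ (m + 1)) →
    ∀ k, (k + 1) ^ E * N k ≤ M * (A + 2) ^ E * 2 ^ k := by
  obtain ⟨M, hM⟩ := pow_le_two_pow E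
  have hM1 : 1 ≤ M := by have := hM 0; simpa using this
  refine ⟨2 * M * 2 ^ E ^ 2, fun m n A K N hmn hK hKA h1 h2 h3 k => ?_⟩
  have hmE : 2 ^ (m * E) ≤ 2 ^ E ^ 2 * 2 ^ K := by
    rw [← pow_add]
    apply Nat.pow_le_pow_right (by norm_num)
    subst hK
    nlinarith [Nat.mul_le_mul_right E hmn, sq_nonneg ((n : ℤ) - E), two_mul_le_add_sq (n : ℕ) E]
  have hE1 : 1 ≤ 2 ^ E ^ 2 := Nat.one_le_two_pow
  rcases lt_or_ge k A with hk | hk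
  · calc (k + 1) ^ E * N k ≤ (A + 2) ^ E * 2 ^ k :=
          Nat.mul_le_mul (Nat.pow_le_pow_left (by omega) _) (h1 k)
      _ = 1 * (A + 2) ^ E * 2 ^ k := by ring
      _ ≤ _ := by
        refine Nat.mul_le_mul_right _ (Nat.mul_le_mul_right _ ?_)
        nlinarith
  rcases lt_or_ge k (A + 2 ^ m) with hk' | hk'
  · have e1 : (k + 1) ^ E ≤ (A + 2) ^ E * 2 ^ (m * E) := by
      rw [pow_mul, ← mul_pow]
      apply Nat.pow_le_pow_left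
      have : 1 ≤ 2 ^ m := Nat.one_le_two_pow
      nlinarith
    calc (k + 1) ^ E * N k ≤ ((A + 2) ^ E * (2 ^ E ^ 2 * 2 ^ K)) * 2 ^ (k - K) :=
          Nat.mul_le_mul (e1.trans (Nat.mul_le_mul_left _ hmE)) (h2 k hk)
      _ = 2 ^ E ^ 2 * (A + 2) ^ E * (2 ^ K * 2 ^ (k - K)) := by ring
      _ = 2 ^ E ^ 2 * (A + 2) ^ E * 2 ^ k := by
        rw [← pow_add, Nat.add_sub_cancel' (by omega)]
      _ ≤ _ := by
        refine Nat.mul_le_mul_right _ (Nat.mul_le_mul_right _ ?_)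
        nlinarith
  · obtain ⟨j, rfl⟩ := Nat.exists_eq_add_of_le hk'
    have e1 : (A + 2 ^ m + j + 1) ^ E ≤ (A + 2) ^ E * 2 ^ (m * E) * (j + 1) ^ E := by
      rw [pow_mul, ← mul_pow, ← mul_pow]
      apply Nat.pow_le_pow_left
      have h4 : 1 ≤ 2 ^ m := Nat.one_le_two_pow
      have h5 : 2 ^ m + j ≤ 2 ^ m * (j + 1) := by nlinarith
      have h6 : A + 2 ^ m + j + 1 ≤ (A + 2) * (2 ^ m + j) := by nlinarith
      calc _ ≤ (A + 2) * (2 ^ m + j) := h6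
        _ ≤ (A + 2) * (2 ^ m * (j + 1)) := Nat.mul_le_mul_left _ h5
        _ = _ := by ring
    have e2 : m < 2 ^ m := Nat.lt_two_pow_self
    have e3 : 2 ^ (m + 1) ≤ 2 * 2 ^ 2 ^ m := by
      rw [← pow_succ']
      exact Nat.pow_le_pow_right (by norm_num) (by omega)
    calc (A + 2 ^ m + j + 1) ^ E * N (A + 2 ^ m + j)
        ≤ ((A + 2) ^ E * (2 ^ E ^ 2 * 2 ^ K) * (M * 2 ^ j)) * (2 * 2 ^ 2 ^ m) := by
          refine Nat.mul_le_mul (e1.trans ?_) ((h3 _ hk').trans e3)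
          exact Nat.mul_le_mul (Nat.mul_le_mul_left _ hmE) (hM j)
      _ ≤ ((A + 2) ^ E * (2 ^ E ^ 2 * 2 ^ A) * (M * 2 ^ j)) * (2 * 2 ^ 2 ^ m) := by
          have : 2 ^ K ≤ 2 ^ A := Nat.pow_le_pow_right (by norm_num) hKA
          gcongr
      _ = 2 * M * 2 ^ E ^ 2 * (A + 2) ^ E * 2 ^ (A + 2 ^ m + j) := by
          rw [pow_add, pow_add]; ring

theorem exists_W : ∃ W : ℕ, ∑' k : ℕ, ((1 : ℝ≥0∞) / ((k : ℝ≥0∞) + 1) ^ 2) ≤ (W : ℝ≥0∞) := by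
  have h1 : Summable (fun k : ℕ => (1 : ℝ) / ((k : ℝ) + 1) ^ 2) := by
    have := (summable_nat_add_iff 1).2 (Real.summable_one_div_nat_pow.2 (by norm_num : 1 < 2))
    refine this.congr fun k => ?_
    push_cast
    rfl
  have h2 := h1.tsum_ofReal_ne_top
  have h3 : ∀ k : ℕ, ENNReal.ofReal ((1 : ℝ) / ((k : ℝ) + 1) ^ 2) = (1 : ℝ≥0∞) / (k + 1) ^ 2 := by
    intro k
    rw [ENNReal.ofReal_div_of_pos (by positivity), ENNReal.ofReal_pow (by positivity),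
      ENNReal.ofReal_add (by positivity) (by norm_num)]
    simp
  simp only [h3] at h2
  obtain ⟨W, hW⟩ := ENNReal.exists_nat_gt h2
  exact ⟨W, hW.le⟩

theorem tsum_bound (q : Polynomial ℕ) : ∃ P : Polynomial ℕ, ∀ (S m n A K : ℕ) (N : ℕ → ℕ),
    m ≤ n → K = (n + 1) ^ 2 → K ≤ A → (∀ k, N k ≤ 2 ^ k) → (∀ k, A ≤ k → N k ≤ 2 ^ (k - K)) →
    (∀ k, A + 2 ^ m ≤ k → N k ≤ 2 ^ (m + 1)) →
    ∑' k : ℕ, ((q.eval (S + 4 * k) : ℕ) : ℝ≥0∞) * ((N k : ℝ≥0∞) / 2 ^ k) ≤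
      (P.eval (S + A) : ℕ) := by
  obtain ⟨C, D, hq⟩ := eval_le_pow q
  obtain ⟨M, hM⟩ := key_bound (D + 2)
  obtain ⟨W, hW⟩ := exists_W
  refine ⟨Polynomial.C (C * 4 ^ D * M * W) * (Polynomial.X + 1) ^ D * (Polynomial.X + 2) ^ (D + 2),
    fun S m n A K N h1 h2 h3 h4 h5 h6 => ?_⟩
  have key := hM m n A K N h1 h2 h3 h4 h5 h6
  have hpt : ∀ k : ℕ, ((q.eval (S + 4 * k) : ℕ) : ℝ≥0∞) * ((N k : ℝ≥0∞) / 2 ^ k) ≤
      ((C * 4 ^ D * M * (S + 1) ^ D * (A + 2) ^ (D + 2) : ℕ) : ℝ≥0∞) * (1 / (k + 1) ^ 2) := by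
    intro k
    have e1 : q.eval (S + 4 * k) ≤ C * ((S + 1) ^ D * (4 ^ D * (k + 1) ^ D)) := by
      refine (hq _).trans (Nat.mul_le_mul_left _ ?_)
      rw [← mul_pow, ← mul_pow]
      exact Nat.pow_le_pow_left (by nlinarith) _
    have e2 : q.eval (S + 4 * k) * N k * (k + 1) ^ 2 ≤
        C * 4 ^ D * M * (S + 1) ^ D * (A + 2) ^ (D + 2) * 2 ^ k := by
      calc q.eval (S + 4 * k) * N k * (k + 1) ^ 2
          ≤ (C * ((S + 1) ^ D * (4 ^ D * (k + 1) ^ D))) * N k * (k + 1) ^ 2 := by gcongr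
        _ = C * (S + 1) ^ D * 4 ^ D * ((k + 1) ^ (D + 2) * N k) := by ring
        _ ≤ C * (S + 1) ^ D * 4 ^ D * (M * (A + 2) ^ (D + 2) * 2 ^ k) :=
          Nat.mul_le_mul_left _ (key k)
        _ = _ := by ring
    have e3 : ((q.eval (S + 4 * k) : ℕ) : ℝ≥0∞) * (N k : ℝ≥0∞) * ((k : ℝ≥0∞) + 1) ^ 2 ≤
        ((C * 4 ^ D * M * (S + 1) ^ D * (A + 2) ^ (D + 2) : ℕ) : ℝ≥0∞) * 2 ^ k := by
      have := e2
      exact_mod_cast this
    have f1 : ((k : ℝ≥0∞) + 1) ^ 2 ≠ 0 := by positivity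
    have f2 : ((k : ℝ≥0∞) + 1) ^ 2 ≠ ⊤ := by
      apply ENNReal.pow_ne_top
      exact ENNReal.add_ne_top.2 ⟨ENNReal.natCast_ne_top k, ENNReal.one_ne_top⟩
    have f3 : (2 : ℝ≥0∞) ^ k ≠ 0 := by positivity
    have f4 : (2 : ℝ≥0∞) ^ k ≠ ⊤ := ENNReal.pow_ne_top (by norm_num)
    have e4 := (ENNReal.le_div_iff_mul_le (Or.inl f1) (Or.inl f2)).2 e3
    rw [← mul_div_assoc, ENNReal.div_le_iff f3 f4]
    refine e4.trans (le_of_eq ?_)
    simp only [div_eq_mul_inv, one_mul]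
    ring
  refine (ENNReal.tsum_le_tsum hpt).trans ?_
  rw [ENNReal.tsum_mul_left]
  calc _ ≤ ((C * 4 ^ D * M * (S + 1) ^ D * (A + 2) ^ (D + 2) : ℕ) : ℝ≥0∞) * W := by gcongr
    _ ≤ _ := by
      norm_cast
      simp only [Polynomial.eval_mul, Polynomial.eval_pow, Polynomial.eval_add, Polynomial.eval_X,
        Polynomial.eval_C, Polynomial.eval_one, Polynomial.eval_ofNat]
      calc C * 4 ^ D * M * (S + 1) ^ D * (A + 2) ^ (D + 2) * W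
          = C * 4 ^ D * M * W * (S + 1) ^ D * (A + 2) ^ (D + 2) := by ring
        _ ≤ _ := by gcongr <;> omega

end Pool.Agent.W999.ES
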