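import Mathlib
import Pool.Agent.NPC.Num

/-!
Project ES (helper999): the model of a randomized algorithm with access to fair coins.

An algorithm is given by a function `F x r` of the input `x` and of the list `r` of the results of
the coins tossed so far; its value is `none` if a further coin is needed, and `some y` if the output
is `y`. The algorithm computes `F x r` for the first `0, 1, 2, …` coins, until there is an output.
-/

set_option autoImplicit false

namespace Pool.Agent.W999.ES

open MeasureTheory
open Pool.Agent.NPC
open scoped ENNReal

/-- The law of a sequence of independent fair coins. -/
noncomputable def coins : Measure (ℕ → Bool) :=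
  Measure.infinitePi (fun _ : ℕ => (PMF.uniformOfFintype Bool).toMeasure)

/-- The results of the first `k` coins. -/
def first (ω : ℕ → Bool) (k : ℕ) : List Bool := (List.range k).map ω

/-- On the coin sequence `ω`, the algorithm `F` gets to the round with `k` coins. -/
def Running {α β : Type} (F : α → List Bool → Option β) (x : α) (ω : ℕ → Bool) (k : ℕ) : Prop :=
  ∀ j < k, F x (first ω j) = none

/-- On the coin sequence `ω`, the algorithm `F` stops with output `y`. -/
def Outputs {α β : Type} (F : α → List Bool → Option β) (x : α) (ω : ℕ → Bool) (y : β) : Prop :=
  ∃ k, Running F x ω k ∧ F x (first ω k) = some y

open scoped Classical in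
/-- The total cost of the computation on the coin sequence `ω`, if the cost of a round is `q l`
where `l` is the number of bits of the input and the coins of the round. -/
noncomputable def cost {α β : Type} [TEnc α] (F : α → List Bool → Option β) (q : ℕ → ℕ) (x : α)
    (ω : ℕ → Bool) : ℝ≥0∞ :=
  ∑' k, if Running F x ω k then (q (bits (x, first ω k)).length : ℝ≥0∞) else 0

end Pool.Agent.W999.ES
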